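import Pool.Agent.Lib.MP_72af2c_an.Defs

/-!
Basic facts on the Gagliardo description of H^s.
-/

open MeasureTheory Filter Topology Metric
open scoped ENNReal NNReal RealInnerProductSpace ContDiff

namespace Pool.Agent.Lib.MP_72af2c_an

variable {n : ℕ}

section L2

variable {α : Type*} [MeasurableSpace α] {μ : Measure α}

lemma inner_toLp {f g : α → ℝ} (hf : MemLp f 2 μ) (hg : MemLp g 2 μ) :
    ⟪hf.toLp f, hg.toLp g⟫ = ∫ x, f x * g x ∂μ := by
  rw [L2.inner_def]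
  refine integral_congr_ae ?_
  filter_upwards [hf.coeFn_toLp, hg.coeFn_toLp] with x h1 h2
  rw [h1, h2]; simp [mul_comm]

lemma norm_toLp_sq {f : α → ℝ} (hf : MemLp f 2 μ) : ‖hf.toLp f‖ ^ 2 = ∫ x, f x ^ 2 ∂μ := by
  rw [← real_inner_self_eq_norm_sq, inner_toLp]
  simp only [sq]

lemma norm_Lp_sq (F : Lp ℝ 2 μ) : ‖F‖ ^ 2 = ∫ x, F x ^ 2 ∂μ := by
  rw [← norm_toLp_sq (Lp.memLp F), Lp.toLp_coeFn]

lemma integral_mul_sq_le {f g : α → ℝ} (hf : MemLp f 2 μ) (hg : MemLp g 2 μ) :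
    (∫ x, f x * g x ∂μ) ^ 2 ≤ (∫ x, f x ^ 2 ∂μ) * ∫ x, g x ^ 2 ∂μ := by
  rw [← inner_toLp hf hg, ← norm_toLp_sq hf, ← norm_toLp_sq hg, ← mul_pow, ← sq_abs]
  gcongr
  exact abs_real_inner_le_norm _ _

lemma integrable_mul_two {f g : α → ℝ} (hf : MemLp f 2 μ) (hg : MemLp g 2 μ) :
    Integrable (fun x => f x * g x) μ :=
  hf.integrable_mul hg

end L2

lemma gagliardo_add (s : ℝ) (u v : Rn n → ℝ) :
    gagliardo s (u + v) = gagliardo s u + gagliardo s v := by
  funext p; simp only [gagliardo, Pi.add_apply]; ring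

lemma gagliardo_sub (s : ℝ) (u v : Rn n → ℝ) :
    gagliardo s (u - v) = gagliardo s u - gagliardo s v := by
  funext p; simp only [gagliardo, Pi.sub_apply]; ring

lemma gagliardo_neg (s : ℝ) (u : Rn n → ℝ) : gagliardo s (-u) = -gagliardo s u := by
  funext p; simp only [gagliardo, Pi.neg_apply]; ring

lemma gagliardo_smul (s c : ℝ) (u : Rn n → ℝ) : gagliardo s (c • u) = c • gagliardo s u := by
  funext p; simp only [gagliardo, Pi.smul_apply, smul_eq_mul]; ring

lemma gagliardo_zero (s : ℝ) : gagliardo s (0 : Rn n → ℝ) = 0 := by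
  funext p; simp [gagliardo]

lemma gagliardo_mul (s : ℝ) (u v : Rn n → ℝ) (p : Rn n × Rn n) :
    gagliardo s u p * gagliardo s v p
      = (u p.1 - u p.2) * (v p.1 - v p.2) * ‖p.1 - p.2‖ ^ (-((n : ℝ) + 2 * s)) := by
  by_cases h : p.1 = p.2
  · simp [gagliardo, h]
  have hpos : 0 < ‖p.1 - p.2‖ := norm_pos_iff.2 (sub_ne_zero.2 h)
  simp only [gagliardo]
  rw [div_mul_div_comm, ← Real.rpow_add hpos, Real.rpow_neg hpos.le, div_eq_mul_inv]
  congr 3; ring

lemma aesm_fst {u : Rn n → ℝ} (hu : AEStronglyMeasurable u volume) :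
    AEStronglyMeasurable (fun p : Rn n × Rn n => u p.1) (volume.prod volume) :=
  hu.comp_quasiMeasurePreserving Measure.quasiMeasurePreserving_fst

lemma aesm_snd {u : Rn n → ℝ} (hu : AEStronglyMeasurable u volume) :
    AEStronglyMeasurable (fun p : Rn n × Rn n => u p.2) (volume.prod volume) :=
  hu.comp_quasiMeasurePreserving Measure.quasiMeasurePreserving_snd

lemma ae_fst {P : Rn n → Prop} (h : ∀ᵐ x ∂volume, P x) :
    ∀ᵐ p : Rn n × Rn n ∂(volume.prod volume), P p.1 :=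
  Measure.quasiMeasurePreserving_fst.ae h

lemma ae_snd {P : Rn n → Prop} (h : ∀ᵐ x ∂volume, P x) :
    ∀ᵐ p : Rn n × Rn n ∂(volume.prod volume), P p.2 :=
  Measure.quasiMeasurePreserving_snd.ae h

lemma aesm_ker (q : ℝ) :
    AEStronglyMeasurable (fun p : Rn n × Rn n => ‖p.1 - p.2‖ ^ q) (volume.prod volume) :=
  Measurable.aestronglyMeasurable (by fun_prop)

lemma aesm_gagliardo (s : ℝ) {u : Rn n → ℝ} (hu : AEStronglyMeasurable u volume) :
    AEStronglyMeasurable (gagliardo s u) (volume.prod volume) := by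
  refine AEMeasurable.aestronglyMeasurable ?_
  exact ((aesm_fst hu).sub (aesm_snd hu)).aemeasurable.div (aesm_ker _).aemeasurable

lemma gagliardo_congr (s : ℝ) {u v : Rn n → ℝ} (h : u =ᵐ[volume] v) :
    gagliardo s u =ᵐ[volume.prod volume] gagliardo s v := by
  filter_upwards [ae_fst h, ae_snd h] with p h1 h2
  simp only [gagliardo, h1, h2]

namespace InHs

variable {s : ℝ} {u v : Rn n → ℝ}

lemma add (hu : InHs s u) (hv : InHs s v) : InHs s (u + v) :=
  ⟨hu.1.add hv.1, by rw [gagliardo_add]; exact hu.2.add hv.2⟩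

lemma sub (hu : InHs s u) (hv : InHs s v) : InHs s (u - v) :=
  ⟨hu.1.sub hv.1, by rw [gagliardo_sub]; exact hu.2.sub hv.2⟩

lemma neg (hu : InHs s u) : InHs s (-u) :=
  ⟨hu.1.neg, by rw [gagliardo_neg]; exact hu.2.neg⟩

lemma smul (c : ℝ) (hu : InHs s u) : InHs s (c • u) :=
  ⟨hu.1.const_smul c, by rw [gagliardo_smul]; exact hu.2.const_smul c⟩

lemma zero : InHs s (0 : Rn n → ℝ) :=
  ⟨MemLp.zero, by rw [gagliardo_zero]; exact MemLp.zero⟩

lemma aesm (hu : InHs s u) : AEStronglyMeasurable u volume := hu.1.1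

end InHs

namespace IsTest

variable {U V : Set (Rn n)} {φ ψ : Rn n → ℝ}

lemma add (hφ : IsTest U φ) (hψ : IsTest U ψ) : IsTest U (φ + ψ) :=
  ⟨hφ.1.add hψ.1, hφ.2.1.add hψ.2.1,
    (tsupport_add φ ψ).trans (Set.union_subset hφ.2.2 hψ.2.2)⟩

lemma smul (c : ℝ) (hφ : IsTest U φ) : IsTest U (c • φ) :=
  ⟨contDiff_const.smul hφ.1, hφ.2.1.smul_left (f := fun _ => c),
    (tsupport_smul_subset_right (fun _ => c) φ).trans hφ.2.2⟩

lemma zero : IsTest U (0 : Rn n → ℝ) :=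
  ⟨contDiff_const, HasCompactSupport.zero, by simp⟩

lemma mono (hφ : IsTest U φ) (h : U ⊆ V) : IsTest V φ := ⟨hφ.1, hφ.2.1, hφ.2.2.trans h⟩

lemma eq_zero (hφ : IsTest U φ) {x : Rn n} (hx : x ∉ U) : φ x = 0 :=
  image_eq_zero_of_notMem_tsupport fun h => hx (hφ.2.2 h)

lemma continuous (hφ : IsTest U φ) : Continuous φ := hφ.1.continuous

lemma integrable (hφ : IsTest U φ) : Integrable φ volume :=
  hφ.continuous.integrable_of_hasCompactSupport hφ.2.1

lemma memLp (hφ : IsTest U φ) : MemLp φ 2 volume :=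
  hφ.continuous.memLp_of_hasCompactSupport hφ.2.1

end IsTest

lemma integrable_profile (hn : 1 ≤ n) {s L M : ℝ} (hs0 : 0 < s) (hs1 : s < 1) (hL : 0 ≤ L)
    (hM : 0 ≤ M) :
    Integrable (fun z : Rn n => min (L * ‖z‖ ^ 2) M * ‖z‖ ^ (-((n : ℝ) + 2 * s))) volume := by
  have hmeas : AEStronglyMeasurable
      (fun z : Rn n => min (L * ‖z‖ ^ 2) M * ‖z‖ ^ (-((n : ℝ) + 2 * s))) volume :=
    Measurable.aestronglyMeasurable (by fun_prop)
  have hmin : ∀ z : Rn n, 0 ≤ min (L * ‖z‖ ^ 2) M := fun z => le_min (by positivity) hM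
  rw [← integrableOn_univ, ← Set.union_compl_self (ball (0 : Rn n) 1)]
  refine IntegrableOn.union ?_ ?_
  · refine integrableOn_ball_of_norm_le_rpow (μ := volume) (C := L) (α := n + 2 * s - 2)
      (by simpa using hn) (by simp; linarith) (ae_of_all _ fun z => ?_) hmeas
    by_cases hz : z = 0
    · subst hz
      simp only [norm_zero, ne_eq, OfNat.ofNat_ne_zero, not_false_eq_true, zero_pow, mul_zero,
        min_eq_left hM, zero_mul]
      positivity
    have hpos : 0 < ‖z‖ := norm_pos_iff.2 hz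
    rw [Real.norm_eq_abs, abs_of_nonneg (mul_nonneg (hmin z) (Real.rpow_nonneg hpos.le _))]
    calc _ ≤ L * ‖z‖ ^ 2 * ‖z‖ ^ (-((n : ℝ) + 2 * s)) := by gcongr; exact min_le_left _ _
      _ = L * ‖z‖ ^ (-((n : ℝ) + 2 * s - 2)) := by
        rw [mul_assoc, ← Real.rpow_natCast, ← Real.rpow_add hpos]
        congr 2; push_cast; ring
  · have hint : Integrable (fun z : Rn n => (1 + ‖z‖) ^ (-((n : ℝ) + 2 * s))) volume :=
      integrable_one_add_norm (by simp; linarith)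
    refine Integrable.mono' ((hint.const_mul (M * 2 ^ ((n : ℝ) + 2 * s))).integrableOn)
      hmeas.restrict ?_
    rw [ae_restrict_iff' measurableSet_ball.compl]
    refine ae_of_all _ fun z hz => ?_
    have hz1 : 1 ≤ ‖z‖ := by simpa using hz
    have hpos : 0 < ‖z‖ := by linarith
    have hp : 0 ≤ (n : ℝ) + 2 * s := by positivity
    rw [Real.norm_eq_abs, abs_of_nonneg (mul_nonneg (hmin z) (Real.rpow_nonneg hpos.le _))]
    have h1 : (2 * ‖z‖) ^ (-((n : ℝ) + 2 * s)) ≤ (1 + ‖z‖) ^ (-((n : ℝ) + 2 * s)) :=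
      Real.rpow_le_rpow_of_nonpos (by positivity) (by linarith) (by linarith)
    rw [Real.mul_rpow (by norm_num) hpos.le] at h1
    have h2 : (2 : ℝ) ^ ((n : ℝ) + 2 * s) * 2 ^ (-((n : ℝ) + 2 * s)) = 1 := by
      rw [← Real.rpow_add (by norm_num)]; simp
    calc _ ≤ M * ‖z‖ ^ (-((n : ℝ) + 2 * s)) := by gcongr; exact min_le_right _ _
      _ = M * 2 ^ ((n : ℝ) + 2 * s) * (2 ^ (-((n : ℝ) + 2 * s)) * ‖z‖ ^ (-((n : ℝ) + 2 * s))) := by
        rw [mul_assoc, ← mul_assoc (2 ^ ((n : ℝ) + 2 * s)), h2, one_mul]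
      _ ≤ _ := by gcongr

lemma IsTest.inHs (hn : 1 ≤ n) {s : ℝ} (hs0 : 0 < s) (hs1 : s < 1) {U : Set (Rn n)}
    {φ : Rn n → ℝ} (hφ : IsTest U φ) : InHs s φ := by
  refine ⟨hφ.memLp, ?_⟩
  have hm : AEStronglyMeasurable φ volume := hφ.continuous.aestronglyMeasurable
  rw [memLp_two_iff_integrable_sq (aesm_gagliardo s hm)]
  obtain ⟨L, hL⟩ := ContDiff.lipschitzWith_of_hasCompactSupport hφ.2.1 hφ.1 (by simp)
  obtain ⟨M, hM⟩ := hφ.2.1.exists_bound_of_continuous hφ.continuous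
  have hM0 : 0 ≤ M := (norm_nonneg _).trans (hM 0)
  set ψ : Rn n → ℝ := fun z => min ((L : ℝ) ^ 2 * ‖z‖ ^ 2) (4 * M ^ 2) *
    ‖z‖ ^ (-((n : ℝ) + 2 * s)) with hψ
  have hψi : Integrable ψ volume := integrable_profile hn hs0 hs1 (by positivity) (by positivity)
  have hψ0 : ∀ z, 0 ≤ ψ z := fun z =>
    mul_nonneg (le_min (by positivity) (by positivity)) (Real.rpow_nonneg (norm_nonneg _) _)
  set χ : Rn n → ℝ := (tsupport φ).indicator (fun _ => 1) with hχ
  have hχi : Integrable χ volume := by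
    rw [hχ, integrable_indicator_iff (isClosed_tsupport φ).measurableSet]
    exact integrableOn_const (hφ.2.1.isCompact.measure_lt_top.ne)
  have hχ0 : ∀ x, 0 ≤ χ x := fun x => Set.indicator_nonneg (fun _ _ => zero_le_one) x
  have h1 : Integrable (fun p : Rn n × Rn n => χ p.2 * ψ (p.1 - p.2)) (volume.prod volume) :=
    hχi.convolution_integrand (ContinuousLinearMap.mul ℝ ℝ) hψi
  have h2 : Integrable (fun p : Rn n × Rn n => χ p.1 * ψ (p.2 - p.1)) (volume.prod volume) :=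
    h1.swap
  refine Integrable.mono' (h1.add h2) ((aesm_gagliardo s hm).pow 2) (ae_of_all _ fun p => ?_)
  have hsym : ψ (p.2 - p.1) = ψ (p.1 - p.2) := by simp only [hψ, norm_sub_rev]
  have hle : gagliardo s φ p ^ 2 ≤ ψ (p.1 - p.2) := by
    rw [sq, gagliardo_mul, hψ]
    refine mul_le_mul_of_nonneg_right (le_min ?_ ?_) (Real.rpow_nonneg (norm_nonneg _) _)
    · have := hL.dist_le_mul p.1 p.2
      rw [Real.dist_eq, dist_eq_norm] at this
      rw [← sq, ← sq_abs, ← mul_pow]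
      gcongr
    · have h3 := hM p.1
      have h4 := hM p.2
      rw [Real.norm_eq_abs, abs_le] at h3 h4
      nlinarith
  rw [Real.norm_eq_abs, abs_of_nonneg (sq_nonneg _), Pi.add_apply, hsym]
  by_cases h3 : p.1 ∈ tsupport φ
  · have : χ p.1 = 1 := by simp [hχ, h3]
    rw [this]
    nlinarith [hχ0 p.2, hψ0 (p.1 - p.2)]
  by_cases h4 : p.2 ∈ tsupport φ
  · have : χ p.2 = 1 := by simp [hχ, h4]
    rw [this]
    nlinarith [hχ0 p.1, hψ0 (p.1 - p.2)]
  have h5 : gagliardo s φ p = 0 := by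
    simp [gagliardo, image_eq_zero_of_notMem_tsupport h3, image_eq_zero_of_notMem_tsupport h4]
  rw [h5]
  nlinarith [mul_nonneg (hχ0 p.1) (hψ0 (p.1 - p.2)), mul_nonneg (hχ0 p.2) (hψ0 (p.1 - p.2))]

lemma hsNorm_add_le {s : ℝ} {u v : Rn n → ℝ} (hu : AEStronglyMeasurable u volume)
    (hv : AEStronglyMeasurable v volume) : hsNorm s (u + v) ≤ hsNorm s u + hsNorm s v := by
  unfold hsNorm
  rw [gagliardo_add]
  have h1 := eLpNorm_add_le hu hv (p := 2) (by norm_num)
  have h2 := eLpNorm_add_le (aesm_gagliardo s hu) (aesm_gagliardo s hv) (p := 2) (by norm_num)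
  calc _ ≤ (eLpNorm u 2 volume + eLpNorm v 2 volume) +
        (eLpNorm (gagliardo s u) 2 (volume.prod volume) +
          eLpNorm (gagliardo s v) 2 (volume.prod volume)) := add_le_add h1 h2
    _ = _ := by ring

lemma hsNorm_smul (s c : ℝ) (u : Rn n → ℝ) : hsNorm s (c • u) = ‖c‖ₑ * hsNorm s u := by
  unfold hsNorm
  rw [gagliardo_smul, eLpNorm_const_smul, eLpNorm_const_smul, mul_add]

namespace InHsTilde

variable {s : ℝ} {Ω : Set (Rn n)} {u v : Rn n → ℝ}

lemma zero : InHsTilde s Ω (0 : Rn n → ℝ) :=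
  ⟨InHs.zero, fun ε hε => ⟨0, IsTest.zero, by simpa [hsNorm, gagliardo_zero] using hε⟩⟩

lemma add (hu : InHsTilde s Ω u) (hv : InHsTilde s Ω v) : InHsTilde s Ω (u + v) := by
  refine ⟨hu.1.add hv.1, fun ε hε => ?_⟩
  obtain ⟨φ, hφ, h1⟩ := hu.2 (ε / 2) (ENNReal.half_pos hε.ne')
  obtain ⟨ψ, hψ, h2⟩ := hv.2 (ε / 2) (ENNReal.half_pos hε.ne')
  refine ⟨φ + ψ, hφ.add hψ, ?_⟩
  have : u + v - (φ + ψ) = (u - φ) + (v - ψ) := by abel
  rw [this]
  refine (hsNorm_add_le (hu.1.aesm.sub hφ.continuous.aestronglyMeasurable)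
    (hv.1.aesm.sub hψ.continuous.aestronglyMeasurable)).trans_lt ?_
  calc _ < ε / 2 + ε / 2 := ENNReal.add_lt_add h1 h2
    _ = ε := ENNReal.add_halves ε

lemma smul (c : ℝ) (hu : InHsTilde s Ω u) : InHsTilde s Ω (c • u) := by
  by_cases hc : c = 0
  · subst hc; simpa using zero
  refine ⟨hu.1.smul c, fun ε hε => ?_⟩
  have hc' : ‖c‖ₑ ≠ 0 := by simpa using hc
  obtain ⟨φ, hφ, h1⟩ := hu.2 (ε / ‖c‖ₑ) (ENNReal.div_pos hε.ne' enorm_ne_top)
  refine ⟨c • φ, hφ.smul c, ?_⟩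
  rw [← smul_sub, hsNorm_smul, mul_comm]
  exact ENNReal.mul_lt_of_lt_div h1

lemma neg (hu : InHsTilde s Ω u) : InHsTilde s Ω (-u) := by
  simpa using hu.smul (-1)

lemma sub (hu : InHsTilde s Ω u) (hv : InHsTilde s Ω v) : InHsTilde s Ω (u - v) := by
  simpa [sub_eq_add_neg] using hu.add hv.neg

/-- An element of the closure vanishes a.e. outside any measurable set containing Ω. -/
lemma ae_zero (hu : InHsTilde s Ω u) {S : Set (Rn n)} (hS : MeasurableSet S) (hΩ : Ω ⊆ S) :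
    ∀ᵐ x ∂volume, x ∉ S → u x = 0 := by
  have h1 : eLpNorm (Sᶜ.indicator u) 2 volume = 0 := by
    refine le_antisymm (le_of_forall_gt_imp_ge_of_dense fun ε hε => ?_) zero_le
    obtain ⟨φ, hφ, h2⟩ := hu.2 ε hε
    have h3 : Sᶜ.indicator u = Sᶜ.indicator (u - φ) := by
      funext x
      by_cases hx : x ∈ Sᶜ
      · simp [hx, hφ.eq_zero fun h => hx (hΩ h)]
      · simp [hx]
    rw [h3]
    exact (eLpNorm_indicator_le _).trans (le_self_add.trans h2.le)
  rw [eLpNorm_eq_zero_iff (hu.1.aesm.indicator hS.compl) (by norm_num)] at h1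
  filter_upwards [h1] with x hx hxS
  simpa [Set.indicator, hxS] using hx

end InHsTilde

/-- Fractional Poincare inequality on a slab. -/
lemma poincare {s : ℝ} (hs0 : 0 < s) {e : Rn n} (he : ‖e‖ = 1) (c r : ℝ) :
    ∃ C : ℝ, 0 < C ∧ ∀ φ : Rn n → ℝ, InHs s φ →
      (∀ᵐ x ∂volume, x ∉ {x : Rn n | |⟪x, e⟫ - c| ≤ r} → φ x = 0) →
      ∫ x, φ x ^ 2 ≤ C * ∫ p, gagliardo s φ p ^ 2 ∂(volume.prod volume) := by
  set L : ℝ := 2 * |r| + 2 with hL
  have hL0 : 0 < L := by positivity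
  set V : ℝ := volume.real (ball (L • e) 1) with hV
  have hV0 : 0 < V := by
    rw [hV, measureReal_def]
    exact ENNReal.toReal_pos (measure_ball_pos _ _ one_pos).ne' measure_ball_lt_top.ne
  have hp : 0 ≤ (n : ℝ) + 2 * s := by positivity
  set K : ℝ := (L + 1) ^ ((n : ℝ) + 2 * s) with hK
  have hK0 : 0 < K := by positivity
  refine ⟨K / V, by positivity, fun φ hφ h0 => ?_⟩
  set χ : Rn n → ℝ := (ball (L • e) 1).indicator (fun _ => 1) with hχ
  have hχi : Integrable χ volume := by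
    rw [hχ, integrable_indicator_iff measurableSet_ball]
    exact integrableOn_const measure_ball_lt_top.ne
  have hχint : ∫ x, χ x = V := by
    rw [hχ, integral_indicator measurableSet_ball]; simp [hV]
  have hφ2 : Integrable (fun x => φ x ^ 2) volume := (memLp_two_iff_integrable_sq hφ.aesm).1 hφ.1
  have hD2 : Integrable (fun p => gagliardo s φ p ^ 2) (volume.prod volume) :=
    (memLp_two_iff_integrable_sq hφ.2.1).1 hφ.2
  have hmp := measurePreserving_prod_sub (volume : Measure (Rn n)) (volume : Measure (Rn n))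
  have h1 : ∫ p : Rn n × Rn n, φ p.1 ^ 2 * χ (p.2 - p.1) ∂(volume.prod volume)
      = (∫ x, φ x ^ 2) * V := by
    rw [← hχint, ← integral_prod_mul]
    exact hmp.integral_comp (MeasurableEquiv.shearSubRight (Rn n)).measurableEmbedding
      (fun p : Rn n × Rn n => φ p.1 ^ 2 * χ p.2)
  have h2 : ∫ p : Rn n × Rn n, φ p.1 ^ 2 * χ (p.2 - p.1) ∂(volume.prod volume)
      ≤ ∫ p, K * gagliardo s φ p ^ 2 ∂(volume.prod volume) := by
    refine integral_mono_of_nonneg (ae_of_all _ fun p => ?_) (hD2.const_mul K) ?_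
    · exact mul_nonneg (sq_nonneg _) (Set.indicator_nonneg (fun _ _ => zero_le_one) _)
    filter_upwards [ae_fst h0, ae_snd h0] with p hp1 hp2
    by_cases hb : p.2 - p.1 ∈ ball (L • e) 1
    swap
    · simp only [hχ, Set.indicator_of_notMem hb, mul_zero]; positivity
    by_cases hx : p.1 ∈ {x : Rn n | |⟪x, e⟫ - c| ≤ r}
    swap
    · rw [hp1 hx]
      simp only [ne_eq, OfNat.ofNat_ne_zero, not_false_eq_true, zero_pow, zero_mul]; positivity
    have hb' : ‖p.2 - p.1 - L • e‖ < 1 := by simpa [dist_eq_norm] using hb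
    have hy : p.2 ∉ {x : Rn n | |⟪x, e⟫ - c| ≤ r} := by
      intro hy
      have hx' : |⟪p.1, e⟫ - c| ≤ r := hx
      have hy' : |⟪p.2, e⟫ - c| ≤ r := hy
      have h3 : |⟪p.2 - p.1 - L • e, e⟫| ≤ ‖p.2 - p.1 - L • e‖ := by
        simpa [he] using abs_real_inner_le_norm (p.2 - p.1 - L • e) e
      rw [inner_sub_left, inner_sub_left, real_inner_smul_left, real_inner_self_eq_norm_sq, he]
        at h3
      rw [abs_le] at hx' hy' h3
      have := le_abs_self r
      linarith [h3.1]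
    have hnorm : ‖p.1 - p.2‖ ≤ L + 1 := by
      have h4 : p.2 - p.1 = (p.2 - p.1 - L • e) + L • e := by abel
      rw [norm_sub_rev, h4]
      refine (norm_add_le _ _).trans ?_
      rw [norm_smul, he, Real.norm_eq_abs, abs_of_pos hL0]; linarith
    have hpos : 0 < ‖p.1 - p.2‖ := by
      rw [norm_pos_iff, sub_ne_zero]
      intro h; rw [h] at hx; exact hy hx
    have h5 : 1 ≤ K * ‖p.1 - p.2‖ ^ (-((n : ℝ) + 2 * s)) := by
      have h6 : (L + 1) ^ (-((n : ℝ) + 2 * s)) ≤ ‖p.1 - p.2‖ ^ (-((n : ℝ) + 2 * s)) :=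
        Real.rpow_le_rpow_of_nonpos hpos hnorm (by linarith)
      calc (1 : ℝ) = K * (L + 1) ^ (-((n : ℝ) + 2 * s)) := by
            rw [hK, ← Real.rpow_add (by positivity)]; simp
        _ ≤ _ := by gcongr
    rw [sq (gagliardo s φ p), gagliardo_mul, hp2 hy]
    simp only [hχ, Set.indicator_of_mem hb, mul_one, sub_zero]
    nlinarith [sq_nonneg (φ p.1)]
  rw [h1, integral_const_mul] at h2
  rw [div_mul_eq_mul_div, le_div_iff₀ hV0]
  exact h2

end Pool.Agent.Lib.MP_72af2c_an
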