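import Mathlib

/-!
Definitions for the inverse fractional conductivity problem.
The space H^s(R^n), 0 < s < 1, is described by the Gagliardo-Slobodeckij norm.
-/

open MeasureTheory
open scoped ENNReal ContDiff

namespace Pool.Agent.Lib.MP_72af2c_an

/-- Euclidean space R^n. -/
abbrev Rn (n : ℕ) : Type := EuclideanSpace ℝ (Fin n)

/-- The Gagliardo difference quotient (u(x) - u(y)) / |x - y|^(n/2 + s) on R^n x R^n. -/
noncomputable def gagliardo {n : ℕ} (s : ℝ) (u : Rn n → ℝ) (p : Rn n × Rn n) : ℝ :=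
  (u p.1 - u p.2) / ‖p.1 - p.2‖ ^ ((n : ℝ) / 2 + s)

/-- u lies in H^s(R^n): u is in L^2(R^n) and its Gagliardo quotient is in L^2(R^n x R^n). -/
def InHs {n : ℕ} (s : ℝ) (u : Rn n → ℝ) : Prop :=
  MemLp u 2 volume ∧ MemLp (gagliardo s u) 2 (volume.prod volume)

/-- The H^s norm: L^2 norm plus Gagliardo seminorm. -/
noncomputable def hsNorm {n : ℕ} (s : ℝ) (u : Rn n → ℝ) : ℝ≥0∞ :=
  eLpNorm u 2 volume + eLpNorm (gagliardo s u) 2 (volume.prod volume)

/-- φ is a smooth function with compact support contained in U. -/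
def IsTest {n : ℕ} (U : Set (Rn n)) (φ : Rn n → ℝ) : Prop :=
  ContDiff ℝ ∞ φ ∧ HasCompactSupport φ ∧ tsupport φ ⊆ U

/-- u lies in the closure, in H^s(R^n), of the test functions supported in Ω. -/
def InHsTilde {n : ℕ} (s : ℝ) (Ω : Set (Rn n)) (u : Rn n → ℝ) : Prop :=
  InHs s u ∧ ∀ ε : ℝ≥0∞, 0 < ε → ∃ φ : Rn n → ℝ, IsTest Ω φ ∧ hsNorm s (u - φ) < ε

/-- The normalising constant of the fractional Laplacian of order s on R^n. -/
noncomputable def cns (n : ℕ) (s : ℝ) : ℝ :=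
  (4 : ℝ) ^ s * Real.Gamma ((n : ℝ) / 2 + s) / (Real.pi ^ ((n : ℝ) / 2) * |Real.Gamma (-s)|)

/-- The bilinear form B_γ of the fractional conductivity equation. -/
noncomputable def formB {n : ℕ} (s : ℝ) (γ u v : Rn n → ℝ) : ℝ :=
  cns n s / 2 * ∫ p : Rn n × Rn n,
    √(γ p.1) * √(γ p.2) / ‖p.1 - p.2‖ ^ ((n : ℝ) + 2 * s) * (u p.1 - u p.2) * (v p.1 - v p.2)
      ∂(volume.prod volume)

/-- u is a weak solution of the fractional conductivity equation in Ω with exterior value f. -/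
def IsSolution {n : ℕ} (s : ℝ) (γ : Rn n → ℝ) (Ω : Set (Rn n)) (f u : Rn n → ℝ) : Prop :=
  InHs s u ∧ InHsTilde s Ω (u - f) ∧ ∀ φ : Rn n → ℝ, InHsTilde s Ω φ → formB s γ u φ = 0

/-- The exterior Dirichlet-to-Neumann pairing: B_γ(u_f, g), where u_f is the weak solution
with exterior value f. -/
noncomputable def dnMap {n : ℕ} (s : ℝ) (γ : Rn n → ℝ) (Ω : Set (Rn n)) (f g : Rn n → ℝ) : ℝ :=
  formB s γ (Classical.epsilon (IsSolution s γ Ω f)) g

/-- γ is measurable and a ≤ γ ≤ b almost everywhere for some constants 0 < a < b. -/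
def UniformlyElliptic {n : ℕ} (γ : Rn n → ℝ) : Prop :=
  AEMeasurable γ volume ∧ ∃ a b : ℝ, 0 < a ∧ a < b ∧ ∀ᵐ x ∂volume, a ≤ γ x ∧ γ x ≤ b

end Pool.Agent.Lib.MP_72af2c_an
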