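import Pool.Agent.Lib.MP_72af2c_an.Basic

/-!
The bilinear form and the existence of weak solutions.
-/

open MeasureTheory Filter Topology Metric
open scoped ENNReal NNReal RealInnerProductSpace ContDiff

namespace Pool.Agent.Lib.MP_72af2c_an

variable {n : ℕ}

/-- A measurable function with values in [α, β], α > 0. -/
structure Cond (σ : Rn n → ℝ) (α β : ℝ) : Prop where
  meas : Measurable σ
  pos : 0 < α
  lb : ∀ x, α ≤ σ x
  ub : ∀ x, σ x ≤ β

lemma Cond.σpos {σ : Rn n → ℝ} {α β : ℝ} (h : Cond σ α β) (x : Rn n) : 0 < σ x :=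
  h.pos.trans_le (h.lb x)

lemma Cond.βpos {σ : Rn n → ℝ} {α β : ℝ} (h : Cond σ α β) : 0 < β :=
  (h.σpos 0).trans_le (h.ub 0)

/-- The bilinear form written with the square root σ of the conductivity. -/
noncomputable def Bf (s : ℝ) (σ u v : Rn n → ℝ) : ℝ :=
  ∫ p : Rn n × Rn n, σ p.1 * σ p.2 * (gagliardo s u p * gagliardo s v p) ∂(volume.prod volume)

lemma cns_pos {s : ℝ} (hs0 : 0 < s) (hs1 : s < 1) : 0 < cns n s := by
  unfold cns
  have h1 : 0 < Real.Gamma ((n : ℝ) / 2 + s) := Real.Gamma_pos_of_pos (by positivity)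
  have h2 : Real.Gamma (-s) ≠ 0 := by
    refine Real.Gamma_ne_zero fun m hm => ?_
    have h3 : s = m := by linarith
    rcases Nat.eq_zero_or_pos m with h | h
    · subst h; simp at h3; linarith
    · have : (1 : ℝ) ≤ m := by exact_mod_cast h
      linarith
  have h3 : 0 < |Real.Gamma (-s)| := abs_pos.2 h2
  have := Real.pi_pos
  positivity

lemma exists_cond {γ : Rn n → ℝ} (hγ : UniformlyElliptic γ) :
    ∃ (σ : Rn n → ℝ) (α β : ℝ), Cond σ α β ∧ (∀ᵐ x ∂volume, σ x = √(γ x) ∧ 0 ≤ γ x) ∧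
      ∀ s u v, formB s γ u v = cns n s / 2 * Bf s σ u v := by
  obtain ⟨hm, a, b, ha, hab, hbd⟩ := hγ
  set σ : Rn n → ℝ := fun x => max (√a) (min (√b) (√(hm.mk γ x))) with hσ
  have hae : ∀ᵐ x ∂volume, σ x = √(γ x) ∧ 0 ≤ γ x := by
    filter_upwards [hm.ae_eq_mk, hbd] with x hx hb
    refine ⟨?_, ha.le.trans hb.1⟩
    simp only [hσ, ← hx]
    rw [min_eq_right (Real.sqrt_le_sqrt hb.2), max_eq_right (Real.sqrt_le_sqrt hb.1)]
  refine ⟨σ, √a, √b, ⟨?_, Real.sqrt_pos.2 ha, fun x => le_max_left _ _, fun x => ?_⟩, hae, ?_⟩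
  · have := hm.measurable_mk
    fun_prop
  · exact max_le (Real.sqrt_le_sqrt hab.le) (min_le_left _ _)
  · intro s u v
    unfold formB Bf
    congr 1
    refine integral_congr_ae ?_
    filter_upwards [ae_fst hae, ae_snd hae] with p h1 h2
    rw [gagliardo_mul, h1.1, h2.1, Real.rpow_neg (norm_nonneg _), div_eq_mul_inv]
    ring

variable {s : ℝ} {σ : Rn n → ℝ} {α β : ℝ}

lemma Cond.aesm (h : Cond σ α β) :
    AEStronglyMeasurable (fun p : Rn n × Rn n => σ p.1 * σ p.2) (volume.prod volume) := by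
  have := h.meas
  exact Measurable.aestronglyMeasurable (by fun_prop)

lemma Cond.abs_le (h : Cond σ α β) (x y : Rn n) : |σ x * σ y| ≤ β ^ 2 := by
  rw [abs_of_pos (mul_pos (h.σpos x) (h.σpos y)), sq]
  exact mul_le_mul (h.ub x) (h.ub y) (h.σpos y).le h.βpos.le

lemma Cond.integrable_mul (h : Cond σ α β) {F : Rn n × Rn n → ℝ}
    (hF : Integrable F (volume.prod volume)) :
    Integrable (fun p : Rn n × Rn n => σ p.1 * σ p.2 * F p) (volume.prod volume) :=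
  hF.bdd_mul h.aesm (ae_of_all _ fun p => h.abs_le p.1 p.2)

lemma integrable_Bf (h : Cond σ α β) {u v : Rn n → ℝ} (hu : InHs s u) (hv : InHs s v) :
    Integrable (fun p : Rn n × Rn n => σ p.1 * σ p.2 * (gagliardo s u p * gagliardo s v p))
      (volume.prod volume) :=
  h.integrable_mul (integrable_mul_two hu.2 hv.2)

lemma Bf_comm (u v : Rn n → ℝ) : Bf s σ u v = Bf s σ v u := by
  unfold Bf; simp only [mul_comm (gagliardo s u _)]

lemma Bf_add_left (h : Cond σ α β) {u v w : Rn n → ℝ} (hu : InHs s u) (hv : InHs s v)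
    (hw : InHs s w) : Bf s σ (u + v) w = Bf s σ u w + Bf s σ v w := by
  unfold Bf
  rw [← integral_add (integrable_Bf h hu hw) (integrable_Bf h hv hw), gagliardo_add]
  congr 1; funext p; simp only [Pi.add_apply]; ring

lemma Bf_self_ge (h : Cond σ α β) {u : Rn n → ℝ} (hu : InHs s u) :
    α ^ 2 * ∫ p, gagliardo s u p ^ 2 ∂(volume.prod volume) ≤ Bf s σ u u := by
  unfold Bf
  rw [← integral_const_mul]
  refine integral_mono (((memLp_two_iff_integrable_sq hu.2.1).1 hu.2).const_mul _)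
    (integrable_Bf h hu hu) fun p => ?_
  have h1 : α ^ 2 ≤ σ p.1 * σ p.2 := by
    rw [sq]; exact mul_le_mul (h.lb _) (h.lb _) h.pos.le (h.σpos _).le
  simp only [← sq]
  exact mul_le_mul_of_nonneg_right h1 (sq_nonneg _)

/-- The weight sqrt(σ(x) σ(y)). -/
noncomputable def wt (σ : Rn n → ℝ) (p : Rn n × Rn n) : ℝ := √(σ p.1 * σ p.2)

lemma Cond.wt_lb (h : Cond σ α β) (p : Rn n × Rn n) : α ≤ wt σ p := by
  unfold wt
  apply Real.le_sqrt_of_sq_le
  rw [sq]; exact mul_le_mul (h.lb _) (h.lb _) h.pos.le (h.σpos _).le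

lemma Cond.wt_ub (h : Cond σ α β) (p : Rn n × Rn n) : wt σ p ≤ β := by
  unfold wt
  exact Real.sqrt_le_iff.2 ⟨h.βpos.le, (le_abs_self _).trans (h.abs_le _ _)⟩

lemma Cond.wt_mul (h : Cond σ α β) (p : Rn n × Rn n) : wt σ p * wt σ p = σ p.1 * σ p.2 :=
  Real.mul_self_sqrt (mul_pos (h.σpos _) (h.σpos _)).le

lemma Cond.wt_meas (h : Cond σ α β) : Measurable (wt σ) := by
  have := h.meas
  unfold wt
  fun_prop

lemma Cond.memLp_wt (h : Cond σ α β) {u : Rn n → ℝ} (hu : InHs s u) :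
    MemLp (fun p => wt σ p * gagliardo s u p) 2 (volume.prod volume) := by
  refine (hu.2.const_mul β).mono (h.wt_meas.aestronglyMeasurable.mul hu.2.1)
    (ae_of_all _ fun p => ?_)
  simp only [norm_mul, Real.norm_eq_abs]
  rw [abs_of_pos (h.pos.trans_le (h.wt_lb p)), abs_of_pos h.βpos]
  exact mul_le_mul_of_nonneg_right (h.wt_ub p) (abs_nonneg _)

/-- The image of the closure of test functions under the weighted difference quotient. -/
noncomputable def rangeSub (s : ℝ) (σ : Rn n → ℝ) (Ω : Set (Rn n)) :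
    Submodule ℝ (Lp ℝ 2 ((volume : Measure (Rn n)).prod (volume : Measure (Rn n)))) where
  carrier := {G | ∃ φ, InHsTilde s Ω φ ∧ G =ᵐ[volume.prod volume] fun p => wt σ p * gagliardo s φ p}
  add_mem' := by
    rintro G H ⟨φ, hφ, h1⟩ ⟨ψ, hψ, h2⟩
    refine ⟨φ + ψ, hφ.add hψ, ?_⟩
    filter_upwards [Lp.coeFn_add G H, h1, h2] with p h3 h1 h2
    rw [h3, Pi.add_apply, h1, h2, gagliardo_add, Pi.add_apply]; ring
  zero_mem' := ⟨0, InHsTilde.zero, by
    filter_upwards [Lp.coeFn_zero ℝ 2 ((volume : Measure (Rn n)).prod (volume : Measure (Rn n)))]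
      with p h
    rw [h, gagliardo_zero]; simp⟩
  smul_mem' := by
    rintro c G ⟨φ, hφ, h1⟩
    refine ⟨c • φ, hφ.smul c, ?_⟩
    filter_upwards [Lp.coeFn_smul c G, h1] with p h3 h1
    rw [h3, Pi.smul_apply, h1, gagliardo_smul, Pi.smul_apply, smul_eq_mul, smul_eq_mul]; ring

lemma measurableSet_slab (e : Rn n) (c r : ℝ) : MeasurableSet {x : Rn n | |⟪x, e⟫ - c| ≤ r} :=
  measurableSet_le (by fun_prop) measurable_const

lemma poincare_tilde (hs0 : 0 < s) {Ω : Set (Rn n)} {e : Rn n} (he : ‖e‖ = 1) {c r : ℝ}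
    (hΩ : ∀ x ∈ Ω, |⟪x, e⟫ - c| ≤ r) :
    ∃ C : ℝ, 0 < C ∧ ∀ φ : Rn n → ℝ, InHsTilde s Ω φ →
      ∫ x, φ x ^ 2 ≤ C * ∫ p, gagliardo s φ p ^ 2 ∂(volume.prod volume) := by
  obtain ⟨C, hC, h⟩ := poincare hs0 he c r
  exact ⟨C, hC, fun φ hφ => h φ hφ.1 (hφ.ae_zero (measurableSet_slab e c r) hΩ)⟩

lemma isClosed_rangeSub (h : Cond σ α β) (hs0 : 0 < s) {Ω : Set (Rn n)} {e : Rn n} (he : ‖e‖ = 1)
    {c r : ℝ} (hΩ : ∀ x ∈ Ω, |⟪x, e⟫ - c| ≤ r) :
    IsClosed (rangeSub s σ Ω).carrier := by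
  obtain ⟨C, hC, hP⟩ := poincare_tilde hs0 he hΩ
  refine IsSeqClosed.isClosed fun G G₀ hG hlim => ?_
  choose φ hφ hGφ using hG
  set Φ : ℕ → Lp ℝ 2 (volume : Measure (Rn n)) := fun k => (hφ k).1.1.toLp (φ k) with hΦ
  have hΦφ : ∀ k, Φ k =ᵐ[volume] φ k := fun k => (hφ k).1.1.coeFn_toLp
  have hα := h.pos
  have hbound : ∀ k l, dist (Φ k) (Φ l) ≤ √C / α * dist (G k) (G l) := by
    intro k l
    rw [dist_eq_norm, dist_eq_norm]
    refine le_of_sq_le_sq ?_ (by positivity)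
    have h1 : ‖Φ k - Φ l‖ ^ 2 = ∫ x, (φ k - φ l) x ^ 2 := by
      rw [norm_Lp_sq]
      refine integral_congr_ae ?_
      filter_upwards [Lp.coeFn_sub (Φ k) (Φ l), hΦφ k, hΦφ l] with x h1 h2 h3
      rw [h1, Pi.sub_apply, h2, h3, Pi.sub_apply]
    have hkl := (hφ k).sub (hφ l)
    have h2 : ‖G k - G l‖ ^ 2 = Bf s σ (φ k - φ l) (φ k - φ l) := by
      rw [norm_Lp_sq]
      refine integral_congr_ae ?_
      filter_upwards [Lp.coeFn_sub (G k) (G l), hGφ k, hGφ l] with x h1 h2 h3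
      rw [h1, Pi.sub_apply, h2, h3, gagliardo_sub, Pi.sub_apply, ← h.wt_mul]; ring
    have h3 := Bf_self_ge h hkl.1
    have h4 := hP _ hkl
    rw [mul_pow, div_pow, Real.sq_sqrt hC.le, h1, h2]
    calc _ ≤ _ := h4
      _ = C / α ^ 2 * (α ^ 2 * ∫ p, gagliardo s (φ k - φ l) p ^ 2 ∂(volume.prod volume)) := by
        field_simp
      _ ≤ _ := by gcongr
  have hcau : CauchySeq Φ := by
    have hGc := hlim.cauchySeq
    rw [Metric.cauchySeq_iff] at hGc ⊢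
    intro ε hε
    have hK : 0 < √C / α := by positivity
    obtain ⟨N, hN⟩ := hGc (ε / (√C / α)) (by positivity)
    refine ⟨N, fun k hk l hl => (hbound k l).trans_lt ?_⟩
    have := hN k hk l hl
    rwa [lt_div_iff₀' hK] at this
  obtain ⟨Φ₀, hΦ₀⟩ := cauchySeq_tendsto_of_complete hcau
  obtain ⟨ns, hns, hns'⟩ := (tendstoInMeasure_of_tendsto_Lp hΦ₀).exists_seq_tendsto_ae
  obtain ⟨ms, hms, hms'⟩ :=
    (tendstoInMeasure_of_tendsto_Lp (hlim.comp hns.tendsto_atTop)).exists_seq_tendsto_ae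
  have hall : ∀ᵐ x ∂volume, ∀ k, Φ k x = φ k x := ae_all_iff.2 hΦφ
  have hallG : ∀ᵐ p ∂(volume.prod volume), ∀ k, G k p = wt σ p * gagliardo s (φ k) p :=
    ae_all_iff.2 hGφ
  have hG₀ : G₀ =ᵐ[volume.prod volume] fun p => wt σ p * gagliardo s Φ₀ p := by
    filter_upwards [ae_fst hns', ae_snd hns', ae_fst hall, ae_snd hall, hallG, hms']
      with p h1 h2 h3 h4 h5 h6
    refine tendsto_nhds_unique h6 ?_
    simp only [Function.comp, h5, gagliardo, ← h3, ← h4]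
    exact (((h1.comp hms.tendsto_atTop).sub (h2.comp hms.tendsto_atTop)).div_const _).const_mul _
  have hΦ₀H : InHs s Φ₀ := by
    refine ⟨Lp.memLp Φ₀, ((Lp.memLp G₀).const_mul α⁻¹).mono
      (aesm_gagliardo s (Lp.aestronglyMeasurable Φ₀)) ?_⟩
    filter_upwards [hG₀] with p hp
    rw [hp, norm_mul, norm_mul, Real.norm_eq_abs, Real.norm_eq_abs, Real.norm_eq_abs,
      abs_of_pos (inv_pos.2 hα), abs_of_pos (hα.trans_le (h.wt_lb p)), ← mul_assoc]
    refine le_mul_of_one_le_left (abs_nonneg _) ?_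
    rw [inv_mul_eq_div, le_div_iff₀ hα, one_mul]; exact h.wt_lb p
  have hconv : Tendsto (fun k => hsNorm s ((Φ₀ : Rn n → ℝ) - φ k)) atTop (𝓝 0) := by
    have h1 : Tendsto (fun k => eLpNorm ((Φ₀ : Rn n → ℝ) - φ k) 2 volume) atTop (𝓝 0) := by
      have := (Lp.tendsto_Lp_iff_tendsto_eLpNorm' _ _).1 hΦ₀
      refine this.congr fun k => ?_
      rw [eLpNorm_sub_comm]
      refine eLpNorm_congr_ae ?_
      filter_upwards [hΦφ k] with x hx
      rw [Pi.sub_apply, Pi.sub_apply, hx]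
    have h2 : Tendsto (fun k => eLpNorm (gagliardo s ((Φ₀ : Rn n → ℝ) - φ k)) 2 (volume.prod volume))
        atTop (𝓝 0) := by
      have h3 := (Lp.tendsto_Lp_iff_tendsto_eLpNorm' _ _).1 hlim
      have h4 := ENNReal.Tendsto.const_mul (a := ENNReal.ofReal α⁻¹) h3
        (Or.inr ENNReal.ofReal_ne_top)
      rw [mul_zero] at h4
      refine tendsto_of_tendsto_of_tendsto_of_le_of_le tendsto_const_nhds h4
        (fun _ => zero_le) fun k => ?_
      refine eLpNorm_le_mul_eLpNorm_of_ae_le_mul ?_ 2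
      filter_upwards [hG₀, hGφ k] with p h5 h6
      rw [Pi.sub_apply, h5, h6, gagliardo_sub, Pi.sub_apply, ← mul_sub, norm_mul,
        Real.norm_eq_abs (wt σ p), abs_of_pos (hα.trans_le (h.wt_lb p)), ← mul_assoc,
        norm_sub_rev]
      refine le_mul_of_one_le_left (norm_nonneg _) ?_
      rw [inv_mul_eq_div, le_div_iff₀ hα, one_mul]; exact h.wt_lb p
    simpa [hsNorm] using h1.add h2
  refine ⟨Φ₀, ⟨hΦ₀H, fun ε hε => ?_⟩, hG₀⟩
  have hε2 := ENNReal.half_pos hε.ne'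
  obtain ⟨k, hk⟩ := (hconv.eventually (gt_mem_nhds hε2)).exists
  obtain ⟨ψ, hψ, h1⟩ := (hφ k).2 (ε / 2) hε2
  refine ⟨ψ, hψ, ?_⟩
  have : (Φ₀ : Rn n → ℝ) - ψ = ((Φ₀ : Rn n → ℝ) - φ k) + (φ k - ψ) := by abel
  rw [this]
  refine (hsNorm_add_le (hΦ₀H.aesm.sub (hφ k).1.aesm)
    ((hφ k).1.aesm.sub hψ.continuous.aestronglyMeasurable)).trans_lt ?_
  calc _ < ε / 2 + ε / 2 := ENNReal.add_lt_add hk h1
    _ = ε := ENNReal.add_halves ε

theorem exists_solution (h : Cond σ α β) (hs0 : 0 < s) {Ω : Set (Rn n)} {e : Rn n} (he : ‖e‖ = 1)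
    {c r : ℝ} (hΩ : ∀ x ∈ Ω, |⟪x, e⟫ - c| ≤ r) {f : Rn n → ℝ} (hf : InHs s f) :
    ∃ u, InHs s u ∧ InHsTilde s Ω (u - f) ∧ ∀ φ, InHsTilde s Ω φ → Bf s σ u φ = 0 := by
  have hcl := isClosed_rangeSub h hs0 he hΩ
  have : CompleteSpace (rangeSub s σ Ω) := hcl.completeSpace_coe
  set F := (h.memLp_wt hf).toLp _ with hF
  obtain ⟨G₀, ⟨φ₀, hφ₀, hG₀⟩, hperp⟩ :=
    Submodule.HasOrthogonalProjection.exists_orthogonal (K := rangeSub s σ Ω) F
  refine ⟨f - φ₀, hf.sub hφ₀.1, ?_, fun φ hφ => ?_⟩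
  · have : f - φ₀ - f = -φ₀ := by abel
    rw [this]; exact hφ₀.neg
  · have h1 : (h.memLp_wt hφ.1).toLp _ ∈ rangeSub s σ Ω := ⟨φ, hφ, MemLp.coeFn_toLp _⟩
    have h2 := (Submodule.mem_orthogonal _ _).1 hperp _ h1
    rw [L2.inner_def] at h2
    rw [← h2]
    refine integral_congr_ae ?_
    filter_upwards [(h.memLp_wt hφ.1).coeFn_toLp, Lp.coeFn_sub F G₀, hG₀,
      (h.memLp_wt hf).coeFn_toLp] with p h3 h4 h5 h6
    rw [h3, h4, Pi.sub_apply, h5, hF, h6, gagliardo_sub, Pi.sub_apply, ← h.wt_mul]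
    simp only [RCLike.inner_apply, conj_trivial]
    ring

end Pool.Agent.Lib.MP_72af2c_an
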