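import Pool.Agent.Lib.MP_72af2c_an.Split

/-!
Exterior determination at Lebesgue points.
-/

open MeasureTheory Filter Topology Metric
open scoped ENNReal NNReal RealInnerProductSpace ContDiff

namespace Pool.Agent.Lib.MP_72af2c_an

variable {n : ℕ} {s : ℝ} {σ σ₁ σ₂ : Rn n → ℝ} {α β : ℝ}

/-- Equality of the measurements in the ball of centre x₀ and radius ρ. -/
def SameData (s : ℝ) (σ₁ σ₂ : Rn n → ℝ) (Ω : Set (Rn n)) (x₀ : Rn n) (ρ : ℝ) : Prop :=
  ∀ f, IsTest (ball x₀ ρ) f → ∃ u₁ u₂, Sol s σ₁ Ω f u₁ ∧ Sol s σ₂ Ω f u₂ ∧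
    ∀ g, IsTest (ball x₀ ρ) g → Bf s σ₁ u₁ g = Bf s σ₂ u₂ g

lemma Sol.decomp (hn : 1 ≤ n) (h : Cond σ α β) (hs0 : 0 < s) (hs1 : s < 1) {Ω U : Set (Rn n)}
    {f u g : Rn n → ℝ} (hu : Sol s σ Ω f u) (hf : IsTest U f) (hg : IsTest U g) :
    Bf s σ u g = Bf s σ f g + Bf s σ (u - f) g := by
  rw [← Bf_add_left h (hf.inHs hn hs0 hs1) hu.2.1.1 (hg.inHs hn hs0 hs1)]
  congr 1; abel

lemma star (hn : 1 ≤ n) (h₁ : Cond σ₁ α β) (h₂ : Cond σ₂ α β) (hs0 : 0 < s) (hs1 : s < 1)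
    {Ω : Set (Rn n)} {e : Rn n} (he : ‖e‖ = 1) {c r : ℝ} (hΩ : ∀ x ∈ Ω, |⟪x, e⟫ - c| ≤ r)
    {x₀ : Rn n} {ρ : ℝ} (hρ : 0 < ρ) (hΩ' : ∀ x ∈ Ω, x ∉ ball x₀ (2 * ρ))
    (H : SameData s σ₁ σ₂ Ω x₀ ρ) :
    ∃ C : ℝ, 0 ≤ C ∧ ∀ f g, IsTest (ball x₀ ρ) f → IsTest (ball x₀ ρ) g → (∀ x, f x * g x = 0) →
      |∫ p : Rn n × Rn n, (σ₁ p.1 * σ₁ p.2 - σ₂ p.1 * σ₂ p.2) *
        (g p.1 * f p.2 * ‖p.1 - p.2‖ ^ (-((n : ℝ) + 2 * s))) ∂(volume.prod volume)|
        ≤ C * ((∫ x, |f x|) * ∫ x, |g x|) := by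
  obtain ⟨C₁, hC₁, hE₁⟩ := energy hn h₁ hs0 hs1 he hΩ hρ hΩ'
  obtain ⟨C₂, hC₂, hE₂⟩ := energy hn h₂ hs0 hs1 he hΩ hρ hΩ'
  set A := β ^ 2 * (2 + 1 / ρ) ^ ((n : ℝ) + 2 * s) with hA
  have hA0 : 0 ≤ A := by positivity
  refine ⟨A * (C₁ + C₂), by positivity, fun f g hf hg hfg => ?_⟩
  obtain ⟨u₁, u₂, hu₁, hu₂, heq⟩ := H f hf
  have hfH := hf.inHs hn hs0 hs1
  have hgH := hg.inHs hn hs0 hs1
  have h1 := heq g hg
  rw [hu₁.decomp hn h₁ hs0 hs1 hf hg, hu₂.decomp hn h₂ hs0 hs1 hf hg] at h1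
  have z₁ := hu₁.2.1.ae_zero_ball hΩ'
  have z₂ := hu₂.2.1.ae_zero_ball hΩ'
  have s₁ := split h₁ hfH hgH (ae_of_all _ hfg)
  have s₂ := split h₂ hfH hgH (ae_of_all _ hfg)
  have t₁ := (split h₁ hu₁.2.1.1 hgH (ae_mul_zero hρ (fun x => hg.eq_zero) z₁)).2
  have t₂ := (split h₂ hu₂.2.1.1 hgH (ae_mul_zero hρ (fun x => hg.eq_zero) z₂)).2
  have b₁ := cross_bound h₁ hs0 hρ hg.integrable (fun x => hg.eq_zero) hu₁.2.1.1.1 z₁
  have b₂ := cross_bound h₂ hs0 hρ hg.integrable (fun x => hg.eq_zero) hu₂.2.1.1.1 z₂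
  have e₁ := hE₁ f u₁ hf hu₁
  have e₂ := hE₂ f u₂ hf hu₂
  have hIg : 0 ≤ ∫ x, |g x| := integral_nonneg fun y => abs_nonneg _
  simp only [sub_mul]
  rw [integral_sub s₁.1 s₂.1]
  have c₁ : A * ((∫ x, |g x|) * ∫ y, |(u₁ - f) y| * om s x₀ y)
      ≤ A * ((∫ x, |g x|) * (C₁ * ∫ x, |f x|)) := by gcongr
  have c₂ : A * ((∫ x, |g x|) * ∫ y, |(u₂ - f) y| * om s x₀ y)
      ≤ A * ((∫ x, |g x|) * (C₂ * ∫ x, |f x|)) := by gcongr
  rw [abs_le] at b₁ b₂ ⊢
  constructor <;> nlinarith [s₁.2, s₂.2, b₁.1, b₁.2, b₂.1, b₂.2]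

lemma Cond.locInt (h : Cond σ α β) : LocallyIntegrable σ volume :=
  (memLp_top_of_bound h.meas.aestronglyMeasurable β (ae_of_all _ fun x => by
    rw [Real.norm_eq_abs, abs_of_pos (h.σpos x)]; exact h.ub x)).locallyIntegrable le_top

lemma Cond.abs_sub_le (h : Cond σ α β) (x y z : Rn n) :
    |σ x * σ y - σ z * σ z| ≤ β * (|σ x - σ z| + |σ y - σ z|) := by
  have h1 : σ x * σ y - σ z * σ z = (σ x - σ z) * σ y + σ z * (σ y - σ z) := by ring
  rw [h1]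
  refine (abs_add_le _ _).trans ?_
  rw [abs_mul, abs_mul, abs_of_pos (h.σpos y), abs_of_pos (h.σpos z)]
  nlinarith [h.ub y, h.ub z, abs_nonneg (σ x - σ z), abs_nonneg (σ y - σ z)]

/-- The bump function of inner radius ε/2 and outer radius ε. -/
noncomputable def bump (c : Rn n) {ε : ℝ} (hε : 0 < ε) : ContDiffBump c :=
  ⟨ε / 2, ε, by positivity, by linarith⟩

lemma bump_isTest (c : Rn n) {ε : ℝ} (hε : 0 < ε) {U : Set (Rn n)} (hU : closedBall c ε ⊆ U) :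
    IsTest U ((bump c hε).normed volume) :=
  ⟨(bump c hε).contDiff_normed, (bump c hε).hasCompactSupport_normed, by
    rw [(bump c hε).tsupport_normed_eq]; exact hU⟩

lemma bump_eq_zero (c : Rn n) {ε : ℝ} (hε : 0 < ε) {x : Rn n} (hx : x ∉ ball c ε) :
    (bump c hε).normed volume x = 0 := by
  by_contra h
  have : x ∈ Function.support ((bump c hε).normed volume) := h
  rw [(bump c hε).support_normed_eq] at this
  exact hx this

lemma integral_bump_le (h : Cond σ α β) (c z : Rn n) {ε : ℝ} (hε : 0 < ε) :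
    ∫ x, |σ x - σ z| * (bump c hε).normed volume x
      ≤ 2 ^ n * ⨍ y in closedBall c ε, ‖σ y - σ z‖ := by
  have hV : 0 < volume.real (closedBall c ε) :=
    ENNReal.toReal_pos (measure_closedBall_pos _ _ hε).ne' measure_closedBall_lt_top.ne
  have hI : IntegrableOn (fun y => ‖σ y - σ z‖) (closedBall c ε) volume :=
    ((h.locInt.integrableOn_isCompact (isCompact_closedBall c ε)).sub
      (integrableOn_const measure_closedBall_lt_top.ne)).norm
  rw [setAverage_eq, smul_eq_mul, ← mul_assoc, ← integral_const_mul,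
    ← integral_indicator measurableSet_closedBall]
  refine integral_mono_of_nonneg (ae_of_all _ fun x => ?_)
    ((integrable_indicator_iff measurableSet_closedBall).2 (hI.const_mul _))
    (ae_of_all _ fun x => ?_)
  · exact mul_nonneg (abs_nonneg _) ((bump c hε).nonneg_normed x)
  by_cases hx : x ∈ closedBall c ε
  · simp only [Set.indicator_of_mem hx, Real.norm_eq_abs]
    rw [mul_comm]
    refine mul_le_mul_of_nonneg_right ?_ (abs_nonneg _)
    have := (bump c hε).normed_le_div_measure_closedBall_rOut (μ := volume) 2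
      (by simp only [bump]; linarith) x
    simpa [bump, div_eq_mul_inv] using this
  · simp only [Set.indicator_of_notMem hx]
    rw [bump_eq_zero c hε fun h => hx (ball_subset_closedBall h), mul_zero]

lemma exterior_step (h₁ : Cond σ₁ α β) (h₂ : Cond σ₂ α β) (hs0 : 0 < s)
    {e : Rn n} (he : ‖e‖ = 1) {U : Set (Rn n)} {C : ℝ}
    (hC : ∀ f g, IsTest U f → IsTest U g → (∀ x, f x * g x = 0) →
      |∫ p : Rn n × Rn n, (σ₁ p.1 * σ₁ p.2 - σ₂ p.1 * σ₂ p.2) *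
        (g p.1 * f p.2 * ‖p.1 - p.2‖ ^ (-((n : ℝ) + 2 * s))) ∂(volume.prod volume)|
        ≤ C * ((∫ x, |f x|) * ∫ x, |g x|))
    (z : Rn n) {ε : ℝ} (hε : 0 < ε) (hU : closedBall z (3 * ε) ⊆ U) :
    |σ₁ z * σ₁ z - σ₂ z * σ₂ z| ≤ C * (6 * ε) ^ ((n : ℝ) + 2 * s) +
      β * 3 ^ ((n : ℝ) + 2 * s) * (2 ^ n *
        ((⨍ y in closedBall (z - (2 * ε) • e) ε, ‖σ₁ y - σ₁ z‖) +
        (⨍ y in closedBall (z - (2 * ε) • e) ε, ‖σ₂ y - σ₂ z‖) +
        ((⨍ y in closedBall (z + (2 * ε) • e) ε, ‖σ₁ y - σ₁ z‖) +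
        (⨍ y in closedBall (z + (2 * ε) • e) ε, ‖σ₂ y - σ₂ z‖)))) := by
  set q : ℝ := (n : ℝ) + 2 * s with hq
  have hq0 : 0 ≤ q := by positivity
  set cp := z + (2 * ε) • e with hcp
  set cm := z - (2 * ε) • e with hcm
  set f := (bump cp hε).normed volume with hf
  set g := (bump cm hε).normed volume with hg
  have hn2 : ‖(2 * ε) • e‖ = 2 * ε := by
    rw [norm_smul, he, Real.norm_eq_abs, abs_of_pos (by positivity), mul_one]
  have hfT : IsTest U f := by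
    refine bump_isTest cp hε ((closedBall_subset_closedBall' ?_).trans hU)
    rw [dist_eq_norm, hcp, add_sub_cancel_left, hn2]; linarith
  have hgT : IsTest U g := by
    refine bump_isTest cm hε ((closedBall_subset_closedBall' ?_).trans hU)
    rw [dist_eq_norm, hcm, sub_sub_cancel_left, norm_neg, hn2]; linarith
  have hf0 : ∀ x, 0 ≤ f x := (bump cp hε).nonneg_normed
  have hg0 : ∀ x, 0 ≤ g x := (bump cm hε).nonneg_normed
  have hf1 : ∫ x, f x = 1 := (bump cp hε).integral_normed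
  have hg1 : ∫ x, g x = 1 := (bump cm hε).integral_normed
  have hdist : ∀ x y, x ∈ ball cm ε → y ∈ ball cp ε → 2 * ε ≤ ‖x - y‖ ∧ ‖x - y‖ ≤ 6 * ε := by
    intro x y hx hy
    rw [mem_ball, dist_eq_norm] at hx hy
    have h4 : ‖cp - cm‖ = 4 * ε := by
      have : cp - cm = (4 * ε) • e := by
        rw [hcp, hcm, show (4 * ε) = 2 * ε + 2 * ε by ring, add_smul]; abel
      rw [this, norm_smul, he, Real.norm_eq_abs, abs_of_pos (by positivity), mul_one]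
    constructor
    · have h5 : cp - cm = (x - cm) - (y - cp) - (x - y) := by abel
      have h6 := norm_sub_le ((x - cm) - (y - cp)) (x - y)
      have h7 := norm_sub_le (x - cm) (y - cp)
      rw [← h5] at h6
      linarith
    · have h5 : x - y = (x - cm) - (y - cp) - (cp - cm) := by abel
      have h6 := norm_sub_le ((x - cm) - (y - cp)) (cp - cm)
      have h7 := norm_sub_le (x - cm) (y - cp)
      rw [← h5] at h6
      linarith
  have hfg : ∀ x, f x * g x = 0 := by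
    intro x
    by_cases hx : x ∈ ball cm ε
    · by_cases hy : x ∈ ball cp ε
      · have := (hdist x x hx hy).1
        rw [sub_self, norm_zero] at this
        linarith
      · rw [hf, bump_eq_zero cp hε hy, zero_mul]
    · rw [hg, bump_eq_zero cm hε hx, mul_zero]
  have hker : ∀ p : Rn n × Rn n,
      (6 * ε) ^ (-q) * (g p.1 * f p.2) ≤ g p.1 * f p.2 * ‖p.1 - p.2‖ ^ (-q) ∧
      g p.1 * f p.2 * ‖p.1 - p.2‖ ^ (-q) ≤ (2 * ε) ^ (-q) * (g p.1 * f p.2) := by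
    intro p
    by_cases hx : p.1 ∈ ball cm ε
    swap
    · simp [hg, bump_eq_zero cm hε hx]
    by_cases hy : p.2 ∈ ball cp ε
    swap
    · simp [hf, bump_eq_zero cp hε hy]
    obtain ⟨h3, h4⟩ := hdist _ _ hx hy
    have h5 := mul_nonneg (hg0 p.1) (hf0 p.2)
    constructor
    · rw [mul_comm]
      exact mul_le_mul_of_nonneg_left
        (Real.rpow_le_rpow_of_nonpos (by linarith) h4 (by linarith)) h5
    · rw [mul_comm _ (g p.1 * f p.2)]
      exact mul_le_mul_of_nonneg_left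
        (Real.rpow_le_rpow_of_nonpos (by positivity) h3 (by linarith)) h5
  have hgf : Integrable (fun p : Rn n × Rn n => g p.1 * f p.2) (volume.prod volume) :=
    hgT.integrable.mul_prod hfT.integrable
  have hT0 : ∀ p : Rn n × Rn n, 0 ≤ g p.1 * f p.2 * ‖p.1 - p.2‖ ^ (-q) := fun p =>
    mul_nonneg (mul_nonneg (hg0 _) (hf0 _)) (Real.rpow_nonneg (norm_nonneg _) _)
  have hTi : Integrable (fun p : Rn n × Rn n => g p.1 * f p.2 * ‖p.1 - p.2‖ ^ (-q))
      (volume.prod volume) := by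
    refine (hgf.const_mul ((2 * ε) ^ (-q))).mono' (hgf.1.mul (aesm_ker _)) (ae_of_all _ fun p => ?_)
    rw [Real.norm_eq_abs, abs_of_nonneg (hT0 p)]
    exact (hker p).2
  set T := ∫ p : Rn n × Rn n, g p.1 * f p.2 * ‖p.1 - p.2‖ ^ (-q) ∂(volume.prod volume) with hT
  have hTlb : (6 * ε) ^ (-q) ≤ T := by
    have := integral_mono (hgf.const_mul ((6 * ε) ^ (-q))) hTi fun p => (hker p).1
    rwa [integral_const_mul, integral_prod_mul, hf1, hg1, mul_one, mul_one] at this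
  set S₀ := σ₁ z * σ₁ z - σ₂ z * σ₂ z with hS₀
  set η : Rn n → ℝ := fun x => |σ₁ x - σ₁ z| + |σ₂ x - σ₂ z| with hη
  have hηb : ∀ (σ : Rn n → ℝ), Cond σ α β → ∀ {u : Rn n → ℝ}, Integrable u volume →
      Integrable (fun x => |σ x - σ z| * u x) volume := by
    intro σ h u hu
    refine hu.bdd_mul (c := β) ?_ (ae_of_all _ fun x => ?_)
    · have := h.meas
      exact Measurable.aestronglyMeasurable (by fun_prop)
    · rw [Real.norm_eq_abs, abs_abs, abs_le]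
      constructor <;> linarith [h.σpos x, h.σpos z, h.ub x, h.ub z]
  have hηi : ∀ {u : Rn n → ℝ}, Integrable u volume → Integrable (fun x => η x * u x) volume := by
    intro u hu
    simp only [hη, add_mul]
    exact (hηb σ₁ h₁ hu).add (hηb σ₂ h₂ hu)
  have hηint : ∀ {u : Rn n → ℝ}, Integrable u volume → ∫ x, η x * u x =
      (∫ x, |σ₁ x - σ₁ z| * u x) + ∫ x, |σ₂ x - σ₂ z| * u x := by
    intro u hu
    simp only [hη, add_mul]
    exact integral_add (hηb σ₁ h₁ hu) (hηb σ₂ h₂ hu)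
  have hSi : Integrable (fun p : Rn n × Rn n => (σ₁ p.1 * σ₁ p.2 - σ₂ p.1 * σ₂ p.2) *
      (g p.1 * f p.2 * ‖p.1 - p.2‖ ^ (-q))) (volume.prod volume) := by
    simp only [sub_mul]
    exact (h₁.integrable_mul hTi).sub (h₂.integrable_mul hTi)
  have hβ := h₁.βpos
  have hR : |∫ p : Rn n × Rn n, ((σ₁ p.1 * σ₁ p.2 - σ₂ p.1 * σ₂ p.2) *
      (g p.1 * f p.2 * ‖p.1 - p.2‖ ^ (-q)) - S₀ * (g p.1 * f p.2 * ‖p.1 - p.2‖ ^ (-q)))
        ∂(volume.prod volume)| ≤ β * (2 * ε) ^ (-q) * ((∫ x, η x * g x) + ∫ x, η x * f x) := by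
    have i1 : Integrable (fun p : Rn n × Rn n => (η p.1 * g p.1) * f p.2) (volume.prod volume) :=
      (hηi hgT.integrable).mul_prod hfT.integrable
    have i2 : Integrable (fun p : Rn n × Rn n => g p.1 * (η p.2 * f p.2)) (volume.prod volume) :=
      hgT.integrable.mul_prod (hηi hfT.integrable)
    have e1 : (∫ x, η x * g x) + ∫ x, η x * f x = ∫ p : Rn n × Rn n,
        ((η p.1 * g p.1) * f p.2 + g p.1 * (η p.2 * f p.2)) ∂(volume.prod volume) := by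
      rw [integral_add i1 i2, integral_prod_mul (fun x => η x * g x) f,
        integral_prod_mul g (fun x => η x * f x), hf1, hg1, mul_one, one_mul]
    rw [e1, ← integral_const_mul, ← Real.norm_eq_abs]
    refine norm_integral_le_of_norm_le ((i1.add i2).const_mul _) (ae_of_all _ fun p => ?_)
    rw [← sub_mul, norm_mul, Real.norm_eq_abs, Real.norm_eq_abs, abs_of_nonneg (hT0 p)]
    have h3 : |σ₁ p.1 * σ₁ p.2 - σ₂ p.1 * σ₂ p.2 - S₀| ≤ β * (η p.1 + η p.2) := by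
      have h4 : σ₁ p.1 * σ₁ p.2 - σ₂ p.1 * σ₂ p.2 - S₀
          = (σ₁ p.1 * σ₁ p.2 - σ₁ z * σ₁ z) - (σ₂ p.1 * σ₂ p.2 - σ₂ z * σ₂ z) := by
        rw [hS₀]; ring
      rw [h4]
      refine (abs_sub _ _).trans ?_
      have := h₁.abs_sub_le p.1 p.2 z
      have := h₂.abs_sub_le p.1 p.2 z
      simp only [hη]
      linarith
    have h5 : 0 ≤ η p.1 + η p.2 := by simp only [hη]; positivity
    calc _ ≤ β * (η p.1 + η p.2) * ((2 * ε) ^ (-q) * (g p.1 * f p.2)) :=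
          mul_le_mul h3 (hker p).2 (hT0 p) (by positivity)
      _ = _ := by ring
  rw [integral_sub hSi (hTi.const_mul _), integral_const_mul] at hR
  have hC' := hC f g hfT hgT hfg
  simp only [abs_of_nonneg (hf0 _), abs_of_nonneg (hg0 _), hf1, hg1, mul_one] at hC'
  have hmain : |S₀| * T ≤ C + β * (2 * ε) ^ (-q) * ((∫ x, η x * g x) + ∫ x, η x * f x) := by
    have hT0' : 0 ≤ T := integral_nonneg hT0
    rw [← abs_of_nonneg hT0', ← abs_mul]
    rw [abs_le] at hR hC' ⊢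
    constructor <;> linarith [hR.1, hR.2, hC'.1, hC'.2]
  have a1 := integral_bump_le h₁ cm z hε
  have a2 := integral_bump_le h₂ cm z hε
  have a3 := integral_bump_le h₁ cp z hε
  have a4 := integral_bump_le h₂ cp z hε
  rw [hηint hgT.integrable, hηint hfT.integrable] at hmain
  set Av := 2 ^ n * ((⨍ y in closedBall cm ε, ‖σ₁ y - σ₁ z‖) +
        (⨍ y in closedBall cm ε, ‖σ₂ y - σ₂ z‖) +
        ((⨍ y in closedBall cp ε, ‖σ₁ y - σ₁ z‖) +
        (⨍ y in closedBall cp ε, ‖σ₂ y - σ₂ z‖))) with hAv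
  have h6 : |S₀| * (6 * ε) ^ (-q) ≤ C + β * (2 * ε) ^ (-q) * Av := by
    calc _ ≤ |S₀| * T := by gcongr
      _ ≤ _ := hmain
      _ ≤ _ := by
        gcongr
        rw [hAv]; linarith
  have h7 : (6 * ε) ^ (-q) * (6 * ε) ^ q = 1 := by
    rw [← Real.rpow_add (by positivity)]; simp
  have h8 : (2 * ε) ^ (-q) * (6 * ε) ^ q = 3 ^ q := by
    rw [show 6 * ε = 3 * (2 * ε) by ring, Real.mul_rpow (x := 3) (by norm_num) (by positivity),
      mul_left_comm, ← Real.rpow_add (by positivity)]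
    simp
  calc |S₀| = |S₀| * (6 * ε) ^ (-q) * (6 * ε) ^ q := by rw [mul_assoc, h7, mul_one]
    _ ≤ (C + β * (2 * ε) ^ (-q) * Av) * (6 * ε) ^ q := by gcongr
    _ = C * (6 * ε) ^ q + β * ((2 * ε) ^ (-q) * (6 * ε) ^ q) * Av := by ring
    _ = _ := by rw [h8]

theorem exterior (hn : 1 ≤ n) (h₁ : Cond σ₁ α β) (h₂ : Cond σ₂ α β) (hs0 : 0 < s) (hs1 : s < 1)
    {Ω : Set (Rn n)} {e : Rn n} (he : ‖e‖ = 1) {c r : ℝ} (hΩ : ∀ x ∈ Ω, |⟪x, e⟫ - c| ≤ r)
    {x₀ : Rn n} {ρ : ℝ} (hρ : 0 < ρ) (hΩ' : ∀ x ∈ Ω, x ∉ ball x₀ (2 * ρ))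
    (H : SameData s σ₁ σ₂ Ω x₀ ρ) : ∀ᵐ z ∂volume, z ∈ ball x₀ ρ → σ₁ z = σ₂ z := by
  obtain ⟨C, -, hC⟩ := star hn h₁ h₂ hs0 hs1 he hΩ hρ hΩ' H
  filter_upwards [IsUnifLocDoublingMeasure.ae_tendsto_average_norm_sub volume h₁.locInt 2,
    IsUnifLocDoublingMeasure.ae_tendsto_average_norm_sub volume h₂.locInt 2] with z L₁ L₂ hz
  have hmem : ∀ w : ℝ → Rn n, (∀ ε, 0 < ε → ‖z - w ε‖ = 2 * ε) →
      ∀ᶠ ε in 𝓝[>] (0 : ℝ), z ∈ closedBall (w ε) (2 * ε) := by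
    intro w hw
    filter_upwards [self_mem_nhdsWithin] with ε (hε : 0 < ε)
    rw [mem_closedBall, dist_eq_norm, hw ε hε]
  have hn2 : ∀ ε : ℝ, 0 < ε → ‖(2 * ε) • e‖ = 2 * ε := fun ε hε => by
    rw [norm_smul, he, Real.norm_eq_abs, abs_of_pos (by positivity), mul_one]
  have hm := hmem (fun ε => z - (2 * ε) • e) fun ε hε => by
    rw [sub_sub_cancel, hn2 ε hε]
  have hp := hmem (fun ε => z + (2 * ε) • e) fun ε hε => by
    rw [sub_add_cancel_left, norm_neg, hn2 ε hε]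
  have l1 := L₁ (fun ε => z - (2 * ε) • e) (fun ε => ε) tendsto_id hm
  have l2 := L₂ (fun ε => z - (2 * ε) • e) (fun ε => ε) tendsto_id hm
  have l3 := L₁ (fun ε => z + (2 * ε) • e) (fun ε => ε) tendsto_id hp
  have l4 := L₂ (fun ε => z + (2 * ε) • e) (fun ε => ε) tendsto_id hp
  have hq : 0 < (n : ℝ) + 2 * s := by positivity
  have l0 : Tendsto (fun ε : ℝ => C * (6 * ε) ^ ((n : ℝ) + 2 * s)) (𝓝[>] 0) (𝓝 0) := by
    have : Continuous fun ε : ℝ => C * (6 * ε) ^ ((n : ℝ) + 2 * s) :=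
      continuous_const.mul ((Real.continuous_rpow_const hq.le).comp (by fun_prop))
    have h3 := this.tendsto 0
    rw [mul_zero, Real.zero_rpow hq.ne', mul_zero] at h3
    exact h3.mono_left nhdsWithin_le_nhds
  have lim := l0.add ((((l1.add l2).add (l3.add l4)).const_mul (2 ^ n)).const_mul
    (β * 3 ^ ((n : ℝ) + 2 * s)))
  simp only [add_zero, mul_zero] at lim
  have hz' : 0 < ρ - dist z x₀ := by rw [mem_ball] at hz; linarith
  have hev : ∀ᶠ ε in 𝓝[>] (0 : ℝ), ε ∈ Set.Ioo 0 ((ρ - dist z x₀) / 3) :=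
    Ioo_mem_nhdsGT (by positivity)
  have hle : |σ₁ z * σ₁ z - σ₂ z * σ₂ z| ≤ 0 := by
    refine ge_of_tendsto lim ?_
    filter_upwards [hev] with ε hε
    refine exterior_step h₁ h₂ hs0 he hC z hε.1 (closedBall_subset_ball' ?_)
    linarith [hε.2]
  rw [abs_nonpos_iff, sub_eq_zero] at hle
  exact (mul_self_inj_of_nonneg (h₁.σpos z).le (h₂.σpos z).le).1 hle

end Pool.Agent.Lib.MP_72af2c_an
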