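import Pool.Agent.Lib.MP_72af2c_an.Defs

/-!
A function whose two-sided Laplace transform exists everywhere and vanishes near the origin
vanishes almost everywhere.
-/

open MeasureTheory ProbabilityTheory Filter Topology
open scoped ENNReal NNReal RealInnerProductSpace

namespace Pool.Agent.Lib.MP_72af2c_an

variable {n : ℕ}

lemma integrable_exp_posPart {h : Rn n → ℝ} (hm : AEStronglyMeasurable h volume) {g : Rn n → ℝ}
    (hg : Continuous g) (hint : Integrable (fun y => h y * Real.exp (g y)) volume) :
    Integrable (fun y => Real.exp (g y))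
      (volume.withDensity (fun y => ((h y).toNNReal : ℝ≥0∞))) := by
  have hm' : AEMeasurable (fun y => (h y).toNNReal) volume :=
    hm.aemeasurable.real_toNNReal
  rw [integrable_withDensity_iff_integrable_coe_smul₀ hm']
  refine Integrable.mono hint ?_ ?_
  · exact (hm'.coe_nnreal_real).aestronglyMeasurable.smul
      (Real.continuous_exp.comp hg).aestronglyMeasurable
  · refine ae_of_all _ fun y => ?_
    simp only [smul_eq_mul, norm_mul, Real.norm_eq_abs, Real.coe_toNNReal']
    refine mul_le_mul_of_nonneg_right ?_ (abs_nonneg _)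
    rw [abs_le]
    constructor
    · have := abs_nonneg (h y)
      have := le_max_right (h y) 0
      linarith
    · exact max_le (le_abs_self _) (abs_nonneg _)

theorem ae_eq_zero_of_laplace {h : Rn n → ℝ} (hm : AEStronglyMeasurable h volume)
    (hint : ∀ θ : Rn n, Integrable (fun y => h y * Real.exp ⟪y, θ⟫) volume)
    {δ : ℝ} (hδ : 0 < δ) (h0 : ∀ θ : Rn n, ‖θ‖ < δ → ∫ y, h y * Real.exp ⟪y, θ⟫ = 0) :
    h =ᵐ[volume] 0 := by
  set μp : Measure (Rn n) := volume.withDensity (fun y => ((h y).toNNReal : ℝ≥0∞)) with hμp
  set μm : Measure (Rn n) := volume.withDensity (fun y => (((-h y)).toNNReal : ℝ≥0∞)) with hμm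
  have hmp : AEMeasurable (fun y => (h y).toNNReal) volume := hm.aemeasurable.real_toNNReal
  have hmm : AEMeasurable (fun y => (-h y).toNNReal) volume :=
    hm.neg.aemeasurable.real_toNNReal
  have hip : ∀ θ : Rn n, Integrable (fun y => Real.exp ⟪y, θ⟫) μp := fun θ =>
    integrable_exp_posPart hm (by fun_prop) (hint θ)
  have him : ∀ θ : Rn n, Integrable (fun y => Real.exp ⟪y, θ⟫) μm := fun θ => by
    refine integrable_exp_posPart (h := fun y => -h y) hm.neg (by fun_prop) ?_
    simpa using (hint θ).neg
  have hfp : IsFiniteMeasure μp := by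
    have := hip 0
    simpa [integrable_const_iff_isFiniteMeasure] using this
  have hfm : IsFiniteMeasure μm := by
    have := him 0
    simpa [integrable_const_iff_isFiniteMeasure] using this
  have hdiff : ∀ θ : Rn n, ∫ y, Real.exp ⟪y, θ⟫ ∂μp - ∫ y, Real.exp ⟪y, θ⟫ ∂μm
      = ∫ y, h y * Real.exp ⟪y, θ⟫ := by
    intro θ
    have h1 := (integrable_withDensity_iff_integrable_smul₀ hmp).1 (hip θ)
    have h2 := (integrable_withDensity_iff_integrable_smul₀ hmm).1 (him θ)
    rw [hμp, hμm, integral_withDensity_eq_integral_smul₀ hmp,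
      integral_withDensity_eq_integral_smul₀ hmm, ← integral_sub h1 h2]
    refine integral_congr_ae (ae_of_all _ fun y => ?_)
    simp only [NNReal.smul_def, smul_eq_mul, Real.coe_toNNReal']
    rw [← sub_mul]
    congr 1
    rcases le_total (h y) 0 with hy | hy
    · rw [max_eq_right hy, max_eq_left (by linarith)]; ring
    · rw [max_eq_left hy, max_eq_right (by linarith)]; ring
  have hchar : charFun μp = charFun μm := by
    funext θ
    set X : Rn n → ℝ := fun y => ⟪y, θ⟫ with hX
    have hset : ∀ μ : Measure (Rn n), (∀ θ : Rn n, Integrable (fun y => Real.exp ⟪y, θ⟫) μ) →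
        integrableExpSet X μ = Set.univ := by
      intro μ hμ
      ext t
      simp only [integrableExpSet, Set.mem_ofPred_eq, Set.mem_univ, iff_true, hX]
      have := hμ (t • θ)
      simpa [inner_smul_right] using this
    have hAp : AnalyticOnNhd ℂ (complexMGF X μp) Set.univ := by
      have := analyticOnNhd_complexMGF (X := X) (μ := μp)
      simpa [hset μp hip] using this
    have hAm : AnalyticOnNhd ℂ (complexMGF X μm) Set.univ := by
      have := analyticOnNhd_complexMGF (X := X) (μ := μm)
      simpa [hset μm him] using this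
    have hreal : ∀ᶠ (t : ℝ) in 𝓝 0, complexMGF X μp t = complexMGF X μm t := by
      have hc : Continuous fun t : ℝ => ‖t • θ‖ := by fun_prop
      have : ∀ᶠ (t : ℝ) in 𝓝 0, ‖t • θ‖ < δ := by
        apply hc.continuousAt.eventually_lt continuousAt_const
        simpa using hδ
      filter_upwards [this] with t ht
      rw [complexMGF_ofReal, complexMGF_ofReal]
      congr 1
      have h1 := hdiff (t • θ)
      rw [h0 _ ht, sub_eq_zero] at h1
      simpa [mgf, hX, inner_smul_right] using h1
    have hfreq : ∃ᶠ z in 𝓝[≠] (0 : ℂ), complexMGF X μp z = complexMGF X μm z := by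
      have h_real : ∃ᶠ (x : ℝ) in 𝓝[≠] 0, complexMGF X μp x = complexMGF X μm x :=
        (hreal.filter_mono nhdsWithin_le_nhds).frequently
      rw [frequently_iff_seq_forall] at h_real ⊢
      obtain ⟨xs, hx_tendsto, hx_eq⟩ := h_real
      refine ⟨fun n ↦ xs n, ?_, fun n ↦ ?_⟩
      · rw [tendsto_nhdsWithin_iff] at hx_tendsto ⊢
        constructor
        · have := (Complex.continuous_ofReal.tendsto 0).comp hx_tendsto.1
          simpa [Function.comp_def] using this
        · simpa using hx_tendsto.2
      · simp [hx_eq]
    have heq := AnalyticOnNhd.eqOn_of_preconnected_of_frequently_eq hAp hAm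
      isPreconnected_univ (Set.mem_univ 0) hfreq (Set.mem_univ Complex.I)
    simp only [complexMGF, hX] at heq
    simp only [charFun_apply]
    simpa [mul_comm] using heq
  have hμ : μp = μm := Measure.ext_of_charFun hchar
  rw [hμp, hμm, withDensity_eq_iff_of_sigmaFinite hmp.coe_nnreal_ennreal
    hmm.coe_nnreal_ennreal] at hμ
  filter_upwards [hμ] with y hy
  have h1 : (h y).toNNReal = (-h y).toNNReal := by exact_mod_cast hy
  have h2 : max (h y) 0 = max (-h y) 0 := by
    have := congrArg (fun x : ℝ≥0 => (x : ℝ)) h1
    simpa [Real.coe_toNNReal'] using this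
  rcases le_total (h y) 0 with hy | hy
  · rw [max_eq_right hy, max_eq_left (by linarith)] at h2
    simp only [Pi.zero_apply]; linarith
  · rw [max_eq_left hy, max_eq_right (by linarith)] at h2
    simpa using h2

end Pool.Agent.Lib.MP_72af2c_an
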