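import Pool.Agent.Lib.MP_72af2c_an.Exterior

/-!
Global uniqueness for bounded measurable conductivities.
-/

open MeasureTheory Filter Topology Metric
open scoped ENNReal NNReal RealInnerProductSpace ContDiff

namespace Pool.Agent.Lib.MP_72af2c_an

variable {n : ℕ} {s : ℝ} {σ σ₁ σ₂ : Rn n → ℝ} {α β : ℝ}

/-- Weak form of unique continuation. -/
lemma ucp_weak (h : Cond σ α β) (hs0 : 0 < s) {v : Rn n → ℝ} {z : Rn n} {r : ℝ} (hr : 0 < r)
    (hv : AEStronglyMeasurable v volume) (hint : Integrable (fun y => v y * om s z y) volume)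
    (h0 : ∀ᵐ y ∂volume, y ∈ ball z (2 * r) → v y = 0)
    (hK : ∀ g, IsTest (ball z r) g →
      ∫ x, g x * (σ x * ∫ y, v y * ‖x - y‖ ^ (-((n : ℝ) + 2 * s))) = 0) :
    v =ᵐ[volume] 0 := by
  have hp : 0 ≤ (n : ℝ) + 2 * s := by positivity
  refine ucp (p := (n : ℝ) + 2 * s) (by linarith) hr hv hint h0 ?_
  have hmeas : AEStronglyMeasurable
      (fun x => ∫ y, v y * ‖x - y‖ ^ (-((n : ℝ) + 2 * s))) volume :=
    ((aesm_snd hv).mul (aesm_ker (-((n : ℝ) + 2 * s)))).integral_prod_right'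
  have hbd : ∀ x ∈ ball z r, ‖∫ y, v y * ‖x - y‖ ^ (-((n : ℝ) + 2 * s))‖
      ≤ ∫ y, (2 + 1 / r) ^ ((n : ℝ) + 2 * s) * ‖v y * om s z y‖ := by
    intro x hx
    refine norm_integral_le_of_norm_le (hint.norm.const_mul _) ?_
    filter_upwards [h0] with y hy
    by_cases hb : y ∈ ball z (2 * r)
    · simp [hy hb]
    have hy' : 2 * r ≤ ‖y - z‖ := by simpa [dist_eq_norm] using hb
    have h1 := ker_le hp le_rfl hr hx hy'
    rw [sub_self, neg_zero, Real.rpow_zero, one_mul] at h1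
    rw [norm_mul, norm_mul, Real.norm_eq_abs (om s z y), abs_of_pos (om_pos _ _),
      Real.norm_eq_abs (_ ^ _), abs_of_nonneg (Real.rpow_nonneg (norm_nonneg _) _), mul_left_comm]
    exact mul_le_mul_of_nonneg_left h1 (norm_nonneg _)
  have hloc : LocallyIntegrableOn
      (fun x => σ x * ∫ y, v y * ‖x - y‖ ^ (-((n : ℝ) + 2 * s))) (ball z r) volume := by
    refine IntegrableOn.locallyIntegrableOn ?_
    refine Measure.integrableOn_of_bounded measure_ball_lt_top.ne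
      (h.meas.aestronglyMeasurable.mul hmeas)
      (M := β * ∫ y, (2 + 1 / r) ^ ((n : ℝ) + 2 * s) * ‖v y * om s z y‖) ?_
    rw [ae_restrict_iff' measurableSet_ball]
    refine ae_of_all _ fun x hx => ?_
    rw [norm_mul, Real.norm_eq_abs (σ x), abs_of_pos (h.σpos x)]
    exact mul_le_mul (h.ub x) (hbd x hx) (norm_nonneg _) h.βpos.le
  have := isOpen_ball.ae_eq_zero_of_integral_contDiff_smul_eq_zero hloc
    fun g h1 h2 h3 => hK g ⟨h1, h2, h3⟩
  filter_upwards [this] with x hx hxb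
  exact (mul_eq_zero.1 (hx hxb)).resolve_left (h.σpos x).ne'

lemma Cond.memLp_mul (h : Cond σ α β) {φ : Rn n → ℝ} (hφ : MemLp φ 2 volume) :
    MemLp (fun x => σ x * φ x) 2 volume := by
  refine (hφ.const_mul β).mono (h.meas.aestronglyMeasurable.mul hφ.1) (ae_of_all _ fun p => ?_)
  simp only [norm_mul, Real.norm_eq_abs]
  rw [abs_of_pos (h.σpos p), abs_of_pos h.βpos]
  exact mul_le_mul_of_nonneg_right (h.ub p) (abs_nonneg _)

theorem sigma_eq (hn : 1 ≤ n) (h₁ : Cond σ₁ α β) (h₂ : Cond σ₂ α β) (hs0 : 0 < s) (hs1 : s < 1)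
    {Ω : Set (Rn n)} {e : Rn n} (he : ‖e‖ = 1) {c r : ℝ} (hΩ : ∀ x ∈ Ω, |⟪x, e⟫ - c| ≤ r)
    {x₀ : Rn n} {ρ : ℝ} (hρ : 0 < ρ) (hΩ' : ∀ x ∈ Ω, x ∉ ball x₀ (2 * ρ))
    (H : SameData s σ₁ σ₂ Ω x₀ ρ) : σ₁ =ᵐ[volume] σ₂ := by
  have hext := exterior hn h₁ h₂ hs0 hs1 he hΩ hρ hΩ' H
  let b : ContDiffBump x₀ := ⟨ρ / 4, ρ / 2, by positivity, by linarith⟩
  have hf : IsTest (ball x₀ ρ) b := ⟨b.contDiff, b.hasCompactSupport, by
    rw [b.tsupport_eq]; exact closedBall_subset_ball (by simp only [b]; linarith)⟩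
  obtain ⟨u₁, u₂, hu₁, hu₂, heq⟩ := H b hf
  have hfH := hf.inHs hn hs0 hs1
  have z₁ := hu₁.2.1.ae_zero_ball hΩ'
  have z₂ := hu₂.2.1.ae_zero_ball hΩ'
  set φ₁ := u₁ - b with hφ₁
  set φ₂ := u₂ - b with hφ₂
  set w : Rn n → ℝ := fun y => σ₁ y * φ₁ y - σ₂ y * φ₂ y with hw
  have hwL : MemLp w 2 volume := (h₁.memLp_mul hu₁.2.1.1.1).sub (h₂.memLp_mul hu₂.2.1.1.1)
  have ident : ∀ g, IsTest (ball x₀ ρ) g →
      ∫ x, g x * (σ₁ x * b x) * ∫ y, (σ₁ y - σ₂ y) * ‖x - y‖ ^ (-((n : ℝ) + 2 * s))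
        = ∫ x, g x * (σ₁ x * ∫ y, w y * ‖x - y‖ ^ (-((n : ℝ) + 2 * s))) := by
    intro g hg
    have hgH := hg.inHs hn hs0 hs1
    have h1 := heq g hg
    rw [hu₁.decomp hn h₁ hs0 hs1 hf hg, hu₂.decomp hn h₂ hs0 hs1 hf hg] at h1
    have t₁ := split h₁ hu₁.2.1.1 hgH (ae_mul_zero hρ (fun x => hg.eq_zero) z₁)
    have t₂ := split h₂ hu₂.2.1.1 hgH (ae_mul_zero hρ (fun x => hg.eq_zero) z₂)
    have d := diff_split h₁ h₂ hext hfH hgH (fun x => hf.eq_zero) (fun x => hg.eq_zero)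
    have hae : (fun p : Rn n × Rn n =>
        σ₁ p.1 * σ₁ p.2 * (g p.1 * φ₁ p.2 * ‖p.1 - p.2‖ ^ (-((n : ℝ) + 2 * s))) -
        σ₂ p.1 * σ₂ p.2 * (g p.1 * φ₂ p.2 * ‖p.1 - p.2‖ ^ (-((n : ℝ) + 2 * s))))
        =ᵐ[volume.prod volume] fun p : Rn n × Rn n =>
          g p.1 * (σ₁ p.1 * (w p.2 * ‖p.1 - p.2‖ ^ (-((n : ℝ) + 2 * s)))) := by
      filter_upwards [ae_fst hext] with p hp
      by_cases hx : p.1 ∈ ball x₀ ρ
      · simp only [hw, ← hp hx]; ring
      · simp [hg.eq_zero hx]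
    have i1 := (t₁.1.sub t₂.1).congr hae
    have e1 := integral_congr_ae hae
    rw [integral_sub t₁.1 t₂.1, integral_prod _ i1] at e1
    have e2 := integral_prod _ d.1
    simp only [integral_const_mul] at e1 e2
    rw [← e1, ← e2]
    linarith [t₁.2, t₂.2, d.2]
  -- first use of unique continuation
  have hw0 : w =ᵐ[volume] 0 := by
    set z := x₀ + (3 * ρ / 4) • e with hz
    have hzn : dist z x₀ = 3 * ρ / 4 := by
      rw [dist_eq_norm, hz, add_sub_cancel_left, norm_smul, he, Real.norm_eq_abs,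
        abs_of_pos (by positivity), mul_one]
    refine ucp_weak h₁ hs0 (z := z) (r := ρ / 8) (by positivity) hwL.1
      (integrable_mul_two hwL (memLp_om hs0 z)) ?_ fun g hg => ?_
    · filter_upwards [z₁, z₂] with y h1 h2 hy
      have : y ∈ ball x₀ (2 * ρ) := ball_subset_ball' (by linarith) hy
      simp only [hw, h1 this, h2 this, mul_zero, sub_zero]
    · rw [← ident g (hg.mono (ball_subset_ball' (by linarith)))]
      refine integral_eq_zero_of_ae (ae_of_all _ fun x => ?_)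
      by_cases hx : x ∈ ball z (ρ / 8)
      · have : b x = 0 := by
          refine b.zero_of_le_dist ?_
          have h3 := dist_triangle_left z x₀ x
          rw [mem_ball] at hx
          simp only [b]
          linarith
        simp [this]
      · simp [hg.eq_zero hx]
  have hKw : ∀ x, ∫ y, w y * ‖x - y‖ ^ (-((n : ℝ) + 2 * s)) = 0 := by
    intro x
    refine integral_eq_zero_of_ae ?_
    filter_upwards [hw0] with y hy
    simp [hy]
  -- second use of unique continuation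
  have hm0 : (fun y => σ₁ y - σ₂ y) =ᵐ[volume] 0 := by
    have hmm : AEStronglyMeasurable (fun y => σ₁ y - σ₂ y) volume :=
      (h₁.meas.sub h₂.meas).aestronglyMeasurable
    refine ucp_weak h₁ hs0 (z := x₀) (r := ρ / 4) (by positivity) hmm ?_ ?_ fun g hg => ?_
    · refine (integrable_om hs0 x₀).bdd_mul (c := β) hmm (ae_of_all _ fun x => ?_)
      rw [Real.norm_eq_abs, abs_le]
      constructor <;> linarith [h₁.σpos x, h₂.σpos x, h₁.ub x, h₂.ub x]
    · filter_upwards [hext] with y hy hyb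
      rw [hy (ball_subset_ball (by linarith) hyb), sub_self]
    · have := ident g (hg.mono (ball_subset_ball (by linarith)))
      simp only [hKw, mul_zero, integral_zero] at this
      rw [← this]
      refine integral_congr_ae (ae_of_all _ fun x => ?_)
      by_cases hx : x ∈ ball x₀ (ρ / 4)
      · have : b x = 1 := b.one_of_mem_closedBall (ball_subset_closedBall hx)
        simp only [this]; ring
      · simp [hg.eq_zero hx]
  filter_upwards [hm0] with y hy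
  simpa [sub_eq_zero] using hy

lemma Cond.mono (h : Cond σ α β) {α' β' : ℝ} (h0 : 0 < α') (h1 : α' ≤ α) (h2 : β ≤ β') :
    Cond σ α' β' :=
  ⟨h.meas, h0, fun x => h1.trans (h.lb x), fun x => (h.ub x).trans h2⟩

lemma isSolution_iff (hs0 : 0 < s) (hs1 : s < 1) {γ : Rn n → ℝ}
    (hB : ∀ s u v, formB s γ u v = cns n s / 2 * Bf s σ u v) (Ω : Set (Rn n)) (f u : Rn n → ℝ) :
    IsSolution s γ Ω f u ↔ Sol s σ Ω f u := by
  have hc : cns n s / 2 ≠ 0 := by have := cns_pos (n := n) hs0 hs1; positivity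
  simp only [IsSolution, Sol, hB, mul_eq_zero, hc, false_or]

/-- Existence of weak solutions: the function chosen in `dnMap` is a weak solution. -/
theorem isSolution_epsilon (hs0 : 0 < s) (hs1 : s < 1) {γ : Rn n → ℝ} (hγ : UniformlyElliptic γ)
    {Ω : Set (Rn n)} {e : Rn n} (he : ‖e‖ = 1) {c r : ℝ} (hΩ : ∀ x ∈ Ω, |⟪x, e⟫ - c| ≤ r)
    {f : Rn n → ℝ} (hf : InHs s f) :
    IsSolution s γ Ω f (Classical.epsilon (IsSolution s γ Ω f)) := by
  obtain ⟨σ, α, β, h, -, hB⟩ := exists_cond hγ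
  obtain ⟨u, hu⟩ := exists_solution h hs0 he hΩ hf
  exact Classical.epsilon_spec ⟨u, (isSolution_iff hs0 hs1 hB Ω f u).2 hu⟩

/-- Uniqueness of weak solutions. -/
theorem isSolution_unique (hs0 : 0 < s) (hs1 : s < 1) {γ : Rn n → ℝ} (hγ : UniformlyElliptic γ)
    {Ω : Set (Rn n)} {e : Rn n} (he : ‖e‖ = 1) {c r : ℝ} (hΩ : ∀ x ∈ Ω, |⟪x, e⟫ - c| ≤ r)
    {f u v : Rn n → ℝ} (hu : IsSolution s γ Ω f u) (hv : IsSolution s γ Ω f v) :
    u =ᵐ[volume] v := by
  obtain ⟨σ, α, β, h, -, hB⟩ := exists_cond hγ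
  rw [isSolution_iff hs0 hs1 hB] at hu hv
  obtain ⟨C, hC, hP⟩ := poincare_tilde hs0 he hΩ
  have hd : InHsTilde s Ω (u - v) := by
    have : u - v = (u - f) - (v - f) := by abel
    rw [this]; exact hu.2.1.sub hv.2.1
  have h1 : Bf s σ (u - v) (u - v) = 0 := by
    have h2 := Bf_add_left h hd.1 hv.1 hd.1
    rw [sub_add_cancel, hu.2.2 _ hd, hv.2.2 _ hd] at h2
    linarith
  have h3 := Bf_self_ge h hd.1
  have h4 := hP _ hd
  have hα := h.pos
  have h5 : ∫ p, gagliardo s (u - v) p ^ 2 ∂(volume.prod volume) ≤ 0 := by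
    rw [h1] at h3
    by_contra hcon
    push Not at hcon
    have := mul_pos (pow_pos hα 2) hcon
    linarith
  have h6 : ∫ x, (u - v) x ^ 2 = 0 := by
    refine le_antisymm (h4.trans (mul_nonpos_of_nonneg_of_nonpos hC.le h5)) ?_
    exact integral_nonneg fun x => sq_nonneg _
  rw [integral_eq_zero_iff_of_nonneg (fun x => sq_nonneg _)
    ((memLp_two_iff_integrable_sq hd.1.aesm).1 hd.1.1)] at h6
  filter_upwards [h6] with x hx
  simpa [sub_eq_zero] using hx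

theorem uniqueness (hn : 1 ≤ n) (hs0 : 0 < s) (hs1 : s < 1)
    {Ω : Set (Rn n)} {e : Rn n} (he : ‖e‖ = 1) {c r : ℝ} (hΩ : ∀ x ∈ Ω, |⟪x, e⟫ - c| ≤ r)
    {γ₁ γ₂ : Rn n → ℝ} (hγ₁ : UniformlyElliptic γ₁) (hγ₂ : UniformlyElliptic γ₂)
    {W : Set (Rn n)} (hW : IsOpen W) (hWne : W.Nonempty) (hWΩ : W ⊆ (closure Ω)ᶜ)
    (hDN : ∀ f g, IsTest W f → IsTest W g → dnMap s γ₁ Ω f g = dnMap s γ₂ Ω f g) :
    γ₁ =ᵐ[volume] γ₂ := by
  obtain ⟨σ₁, α₁, β₁, h₁, e₁, hB₁⟩ := exists_cond hγ₁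
  obtain ⟨σ₂, α₂, β₂, h₂, e₂, hB₂⟩ := exists_cond hγ₂
  have hα : 0 < min α₁ α₂ := lt_min h₁.pos h₂.pos
  have k₁ := h₁.mono hα (min_le_left _ _) (le_max_left β₁ β₂)
  have k₂ := h₂.mono hα (min_le_right _ _) (le_max_right β₁ β₂)
  obtain ⟨x₀, hx₀⟩ := hWne
  obtain ⟨R, hR, hRW⟩ := Metric.isOpen_iff.1 hW x₀ hx₀
  have hsub : ball x₀ (R / 2) ⊆ W := (ball_subset_ball (by linarith)).trans hRW
  have hΩ' : ∀ x ∈ Ω, x ∉ ball x₀ (2 * (R / 2)) := by
    intro x hx hb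
    rw [show 2 * (R / 2) = R by ring] at hb
    exact hWΩ (hRW hb) (subset_closure hx)
  have hc : cns n s / 2 ≠ 0 := by have := cns_pos (n := n) hs0 hs1; positivity
  have H : SameData s σ₁ σ₂ Ω x₀ (R / 2) := by
    intro f hf
    have hfH := hf.inHs hn hs0 hs1
    refine ⟨_, _, (isSolution_iff hs0 hs1 hB₁ Ω f _).1 (isSolution_epsilon hs0 hs1 hγ₁ he hΩ hfH),
      (isSolution_iff hs0 hs1 hB₂ Ω f _).1 (isSolution_epsilon hs0 hs1 hγ₂ he hΩ hfH),
      fun g hg => ?_⟩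
    have := hDN f g (hf.mono hsub) (hg.mono hsub)
    unfold dnMap at this
    rw [hB₁, hB₂] at this
    exact mul_left_cancel₀ hc this
  have := sigma_eq hn k₁ k₂ hs0 hs1 he hΩ (by positivity) hΩ' H
  filter_upwards [this, e₁, e₂] with x hx h1 h2
  rw [h1.1, h2.1] at hx
  exact (Real.sqrt_inj h1.2 h2.2).1 hx

end Pool.Agent.Lib.MP_72af2c_an
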