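import Pool.Agent.Lib.MP_72af2c_an.Laplace

/-!
Unique continuation for the Riesz kernel |x - y|^(-p), p > n, in a weighted L^1 class
(which contains both L^2 and L^infinity).
-/

open MeasureTheory Filter Topology Metric
open scoped ENNReal NNReal RealInnerProductSpace

namespace Pool.Agent.Lib.MP_72af2c_an

variable {n : ℕ}

lemma ker_le {p q r : ℝ} (hp : 0 ≤ p) (hq : p ≤ q) (hr : 0 < r) {x y z : Rn n}
    (hx : x ∈ ball z r) (hy : 2 * r ≤ ‖y - z‖) :
    ‖x - y‖ ^ (-q) ≤ r ^ (-(q - p)) * (2 + 1 / r) ^ p * (1 + ‖y - z‖) ^ (-p) := by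
  have hx' : ‖x - z‖ < r := by simpa [dist_eq_norm] using hx
  have htri : ‖y - z‖ ≤ ‖x - y‖ + ‖x - z‖ := by
    have : y - z = (x - z) - (x - y) := by abel
    rw [this]
    exact (norm_sub_le _ _).trans (by linarith)
  set d := ‖x - y‖ with hd
  have hdr : r ≤ d := by linarith
  have hd0 : 0 < d := by linarith
  have hA : 0 < 2 + 1 / r := by positivity
  have h1 : 1 + ‖y - z‖ ≤ (2 + 1 / r) * d := by
    have : 1 ≤ 1 / r * d := by
      rw [one_div, inv_mul_eq_div, le_div_iff₀ hr]; linarith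
    nlinarith
  have h2 : d ^ (-q) = d ^ (-(q - p)) * d ^ (-p) := by
    rw [← Real.rpow_add hd0]; congr 1; ring
  have h3 : d ^ (-(q - p)) ≤ r ^ (-(q - p)) :=
    Real.rpow_le_rpow_of_nonpos hr hdr (by linarith)
  have h4 : d ^ (-p) ≤ (2 + 1 / r) ^ p * (1 + ‖y - z‖) ^ (-p) := by
    have h5 : ((2 + 1 / r) * d) ^ (-p) ≤ (1 + ‖y - z‖) ^ (-p) :=
      Real.rpow_le_rpow_of_nonpos (by positivity) h1 (by linarith)
    rw [Real.mul_rpow hA.le hd0.le] at h5
    have h6 : (2 + 1 / r) ^ p * (2 + 1 / r) ^ (-p) = 1 := by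
      rw [← Real.rpow_add hA]; simp
    calc d ^ (-p) = (2 + 1 / r) ^ p * ((2 + 1 / r) ^ (-p) * d ^ (-p)) := by
          rw [← mul_assoc, h6, one_mul]
      _ ≤ _ := by gcongr
  rw [h2, mul_assoc]
  gcongr

lemma ne_of_mem_ball {r : ℝ} (hr : 0 < r) {x y z : Rn n}
    (hx : x ∈ ball z r) (hy : 2 * r ≤ ‖y - z‖) : x - y ≠ 0 := by
  intro h
  have hx' : ‖x - z‖ < r := by simpa [dist_eq_norm] using hx
  rw [sub_eq_zero] at h
  rw [h] at hx'
  linarith

lemma hasDerivAt_norm_rpow_line (w e : Rn n) (q τ : ℝ) (hne : w + τ • e ≠ 0) :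
    HasDerivAt (fun t : ℝ => ‖w + t • e‖ ^ (-q))
      (-q * (⟪w + τ • e, e⟫ * ‖w + τ • e‖ ^ (-(q + 2)))) τ := by
  have h1 : HasDerivAt (fun t : ℝ => w + t • e) e τ := by
    simpa using ((hasDerivAt_id τ).smul_const e).const_add w
  have h2 := h1.norm_sq
  have hpos : 0 < ‖w + τ • e‖ := norm_pos_iff.2 hne
  have h3 := h2.rpow_const (p := -q / 2) (Or.inl (by positivity))
  have h4 : (fun t : ℝ => ‖w + t • e‖ ^ (-q)) = fun t : ℝ => (‖w + t • e‖ ^ 2) ^ (-q / 2) := by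
    funext t
    rw [← Real.rpow_natCast, ← Real.rpow_mul (norm_nonneg _)]
    congr 1; push_cast; ring
  rw [h4]
  convert h3 using 1
  have h5 : (‖w + τ • e‖ ^ 2) ^ (-q / 2 - 1) = ‖w + τ • e‖ ^ (-(q + 2)) := by
    rw [← Real.rpow_natCast, ← Real.rpow_mul (norm_nonneg _)]
    congr 1; push_cast; ring
  rw [h5]; ring

lemma integral_deriv_eq_zero {F F' : ℝ → Rn n → ℝ} {δ : ℝ} {bound : Rn n → ℝ}
    (hF_meas : ∀ τ, AEStronglyMeasurable (F τ) volume)
    (hF'_meas : ∀ τ, AEStronglyMeasurable (F' τ) volume)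
    (hF_int : ∀ τ ∈ ball (0 : ℝ) δ, Integrable (F τ) volume)
    (hb : Integrable bound volume)
    (h_bound : ∀ y, ∀ τ ∈ ball (0 : ℝ) δ, ‖F' τ y‖ ≤ bound y)
    (h_diff : ∀ y, ∀ τ ∈ ball (0 : ℝ) δ, HasDerivAt (F · y) (F' τ y) τ)
    (h0 : ∀ τ ∈ ball (0 : ℝ) δ, ∫ y, F τ y = 0) :
    ∀ τ ∈ ball (0 : ℝ) δ, ∫ y, F' τ y = 0 := by
  intro τ hτ
  have hs : ball (0 : ℝ) δ ∈ 𝓝 τ := isOpen_ball.mem_nhds hτ
  have := (hasDerivAt_integral_of_dominated_loc_of_deriv_le (μ := volume) hs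
    (Eventually.of_forall hF_meas) (hF_int τ hτ) (hF'_meas τ) (ae_of_all _ h_bound) hb
    (ae_of_all _ h_diff)).2
  have h2 : HasDerivAt (fun t => ∫ y, F t y) 0 τ := by
    refine (hasDerivAt_const τ (0 : ℝ)).congr_of_eventuallyEq ?_
    filter_upwards [hs] with t ht using h0 t ht
  exact this.unique h2

/-- Integrability of `v(y) G(y)` when `|G(y)| ≤ C |x - y|^(-q)`. -/
lemma integrable_mul_of_le {p q r C : ℝ} (hp : 0 ≤ p) (hq : p ≤ q) (hr : 0 < r) (hC : 0 ≤ C)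
    {v G : Rn n → ℝ}
    {x z : Rn n} (hv : AEStronglyMeasurable v volume) (hG : AEStronglyMeasurable G volume)
    (hint : Integrable (fun y => v y * (1 + ‖y - z‖) ^ (-p)) volume)
    (h0 : ∀ y, ‖y - z‖ < 2 * r → v y = 0) (hx : x ∈ ball z r)
    (hGle : ∀ y, 2 * r ≤ ‖y - z‖ → |G y| ≤ C * ‖x - y‖ ^ (-q)) :
    Integrable (fun y => v y * G y) volume := by
  refine Integrable.mono' (hint.norm.const_mul (C * (r ^ (-(q - p)) * (2 + 1 / r) ^ p)))
    (hv.mul hG) (ae_of_all _ fun y => ?_)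
  by_cases hy : ‖y - z‖ < 2 * r
  · simp [h0 y hy]
  push Not at hy
  have h1 := ker_le hp hq hr hx hy
  have h2 := hGle y hy
  simp only [norm_mul, Real.norm_eq_abs]
  rw [abs_of_nonneg (Real.rpow_nonneg (by positivity) _ : 0 ≤ (1 + ‖y - z‖) ^ (-p))]
  calc |v y| * |G y| ≤ |v y| * (C * (r ^ (-(q - p)) * (2 + 1 / r) ^ p * (1 + ‖y - z‖) ^ (-p))) := by
        gcongr
        exact h2.trans (by gcongr)
    _ = _ := by ring

lemma norm_mul_le_of_le {p q r C : ℝ} (hp : 0 ≤ p) (hq : p ≤ q) (hr : 0 < r) (hC : 0 ≤ C)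
    {v : Rn n → ℝ} {G : ℝ} {x y z : Rn n}
    (h0 : ∀ y, ‖y - z‖ < 2 * r → v y = 0) (hx : x ∈ ball z r)
    (hGle : 2 * r ≤ ‖y - z‖ → |G| ≤ C * ‖x - y‖ ^ (-q)) :
    ‖v y * G‖ ≤ C * (r ^ (-(q - p)) * (2 + 1 / r) ^ p) * ‖v y * (1 + ‖y - z‖) ^ (-p)‖ := by
  by_cases hy : ‖y - z‖ < 2 * r
  · simp [h0 y hy]
  push Not at hy
  have h1 := ker_le hp hq hr hx hy
  have h2 := hGle hy
  simp only [norm_mul, Real.norm_eq_abs]
  rw [abs_of_nonneg (Real.rpow_nonneg (by positivity) _ : 0 ≤ (1 + ‖y - z‖) ^ (-p))]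
  calc |v y| * |G| ≤ |v y| * (C * (r ^ (-(q - p)) * (2 + 1 / r) ^ p * (1 + ‖y - z‖) ^ (-p))) := by
        gcongr
        exact h2.trans (by gcongr)
    _ = _ := by ring

lemma measurable_norm_rpow (w : Rn n) (q : ℝ) : Measurable fun y : Rn n => ‖w - y‖ ^ q := by
  fun_prop

lemma abs_inner_mul_le (w e : Rn n) (he : ‖e‖ = 1) (hw : w ≠ 0) (q : ℝ) :
    |⟪w, e⟫ * ‖w‖ ^ (-(q + 1))| ≤ ‖w‖ ^ (-q) := by
  have hpos : 0 < ‖w‖ := norm_pos_iff.2 hw
  rw [abs_mul, abs_of_nonneg (Real.rpow_nonneg hpos.le _)]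
  have h1 : |⟪w, e⟫| ≤ ‖w‖ := by simpa [he] using abs_real_inner_le_norm w e
  calc |⟪w, e⟫| * ‖w‖ ^ (-(q + 1)) ≤ ‖w‖ * ‖w‖ ^ (-(q + 1)) := by gcongr
    _ = ‖w‖ ^ (1 : ℝ) * ‖w‖ ^ (-(q + 1)) := by rw [Real.rpow_one]
    _ = ‖w‖ ^ (-q) := by
      rw [← Real.rpow_add hpos]; congr 1; ring

lemma sq_inner_mul_le (w e : Rn n) (he : ‖e‖ = 1) (hw : w ≠ 0) (q : ℝ) :
    ⟪w, e⟫ ^ 2 * ‖w‖ ^ (-(q + 2)) ≤ ‖w‖ ^ (-q) := by
  have hpos : 0 < ‖w‖ := norm_pos_iff.2 hw
  have h1 : |⟪w, e⟫| ≤ ‖w‖ := by simpa [he] using abs_real_inner_le_norm w e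
  have h2 : ⟪w, e⟫ ^ 2 ≤ ‖w‖ ^ 2 := by
    rw [← sq_abs]; gcongr
  calc ⟪w, e⟫ ^ 2 * ‖w‖ ^ (-(q + 2)) ≤ ‖w‖ ^ 2 * ‖w‖ ^ (-(q + 2)) := by gcongr
    _ = ‖w‖ ^ (2 : ℝ) * ‖w‖ ^ (-(q + 2)) := by norm_cast
    _ = ‖w‖ ^ (-q) := by
      rw [← Real.rpow_add hpos]; congr 1; ring

/-- Second directional derivative of the potential. -/
lemma second_deriv_eq_zero {p q r : ℝ} (hp : 0 ≤ p) (hq : p ≤ q) (hq0 : 0 < q) (hr : 0 < r)
    {v : Rn n → ℝ} {z : Rn n} (hv : AEStronglyMeasurable v volume)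
    (hint : Integrable (fun y => v y * (1 + ‖y - z‖) ^ (-p)) volume)
    (h0 : ∀ y, ‖y - z‖ < 2 * r → v y = 0)
    (hK : ∀ x ∈ ball z r, ∫ y, v y * ‖x - y‖ ^ (-q) = 0)
    {x : Rn n} (hx : x ∈ ball z r) (e : Rn n) (he : ‖e‖ = 1) :
    ∫ y, v y * (‖x - y‖ ^ (-(q + 2)) - (q + 2) * (⟪x - y, e⟫ ^ 2 * ‖x - y‖ ^ (-(q + 2 + 2))))
      = 0 := by
  have hx' : ‖x - z‖ < r := by simpa [dist_eq_norm] using hx
  set δ := r - ‖x - z‖ with hδ
  have hδ0 : 0 < δ := by linarith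
  have hmem : ∀ τ ∈ ball (0 : ℝ) δ, x + τ • e ∈ ball z r := by
    intro τ hτ
    have h1 : |τ| < δ := by simpa using hτ
    rw [mem_ball, dist_eq_norm]
    calc ‖x + τ • e - z‖ = ‖(x - z) + τ • e‖ := by congr 1; abel
      _ ≤ ‖x - z‖ + ‖τ • e‖ := norm_add_le _ _
      _ = ‖x - z‖ + |τ| := by simp [norm_smul, he]
      _ < r := by linarith
  have hrw : ∀ (τ : ℝ) (y : Rn n), x - y + τ • e = x + τ • e - y := fun τ y => by abel
  have hne : ∀ τ ∈ ball (0 : ℝ) δ, ∀ y, 2 * r ≤ ‖y - z‖ → x + τ • e - y ≠ 0 :=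
    fun τ hτ y hy => ne_of_mem_ball hr (hmem τ hτ) hy
  -- first derivative
  have step1 : ∀ τ ∈ ball (0 : ℝ) δ,
      ∫ y, v y * (-q * (⟪x + τ • e - y, e⟫ * ‖x + τ • e - y‖ ^ (-(q + 2)))) = 0 := by
    refine integral_deriv_eq_zero (F := fun τ y => v y * ‖x + τ • e - y‖ ^ (-q))
      (bound := fun y => q * (r ^ (-(q + 1 - p)) * (2 + 1 / r) ^ p)
        * ‖v y * (1 + ‖y - z‖) ^ (-p)‖) ?_ ?_ ?_ ?_ ?_ ?_ ?_
    · intro τ
      exact hv.mul (measurable_norm_rpow _ _).aestronglyMeasurable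
    · intro τ
      refine hv.mul (Measurable.aestronglyMeasurable ?_)
      fun_prop
    · intro τ hτ
      refine integrable_mul_of_le (C := 1) hp hq hr zero_le_one hv
        (measurable_norm_rpow _ _).aestronglyMeasurable hint h0 (hmem τ hτ) fun y _ => ?_
      rw [abs_of_nonneg (Real.rpow_nonneg (norm_nonneg _) _), one_mul]
    · exact hint.norm.const_mul _
    · intro y τ hτ
      refine norm_mul_le_of_le hp (by linarith) hr hq0.le h0 (hmem τ hτ) fun hy => ?_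
      rw [abs_mul, abs_neg, abs_of_pos hq0]
      gcongr
      have := abs_inner_mul_le _ e he (hne τ hτ y hy) (q + 1)
      rwa [show q + 1 + 1 = q + 2 by ring] at this
    · intro y τ hτ
      by_cases hy : ‖y - z‖ < 2 * r
      · simpa [h0 y hy] using hasDerivAt_const τ (0 : ℝ)
      push Not at hy
      have := hasDerivAt_norm_rpow_line (x - y) e q τ (by rw [hrw]; exact hne τ hτ y hy)
      simp only [hrw] at this
      exact this.const_mul (v y)
    · intro τ hτ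
      exact hK _ (hmem τ hτ)
  have step1' : ∀ τ ∈ ball (0 : ℝ) δ,
      ∫ y, v y * (⟪x + τ • e - y, e⟫ * ‖x + τ • e - y‖ ^ (-(q + 2))) = 0 := by
    intro τ hτ
    have h1 := step1 τ hτ
    have h2 : ∀ y, v y * (-q * (⟪x + τ • e - y, e⟫ * ‖x + τ • e - y‖ ^ (-(q + 2))))
        = -q * (v y * (⟪x + τ • e - y, e⟫ * ‖x + τ • e - y‖ ^ (-(q + 2)))) := fun y => by ring
    simp only [h2, integral_const_mul] at h1
    rcases mul_eq_zero.1 h1 with h | h
    · linarith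
    · exact h
  -- second derivative
  have step2 : ∀ τ ∈ ball (0 : ℝ) δ,
      ∫ y, v y * (‖x + τ • e - y‖ ^ (-(q + 2)) - (q + 2) *
        (⟪x + τ • e - y, e⟫ ^ 2 * ‖x + τ • e - y‖ ^ (-(q + 2 + 2)))) = 0 := by
    refine integral_deriv_eq_zero
      (F := fun τ y => v y * (⟪x + τ • e - y, e⟫ * ‖x + τ • e - y‖ ^ (-(q + 2))))
      (bound := fun y => (q + 3) * (r ^ (-(q + 2 - p)) * (2 + 1 / r) ^ p)
        * ‖v y * (1 + ‖y - z‖) ^ (-p)‖) ?_ ?_ ?_ ?_ ?_ ?_ step1'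
    · intro τ
      refine hv.mul (Measurable.aestronglyMeasurable ?_)
      fun_prop
    · intro τ
      refine hv.mul (Measurable.aestronglyMeasurable ?_)
      fun_prop
    · intro τ hτ
      refine integrable_mul_of_le (C := 1) (q := q + 1) hp (by linarith) hr zero_le_one hv
        (Measurable.aestronglyMeasurable (by fun_prop)) hint h0 (hmem τ hτ) fun y hy => ?_
      have := abs_inner_mul_le _ e he (hne τ hτ y hy) (q + 1)
      rwa [show q + 1 + 1 = q + 2 by ring, ← one_mul (‖x + τ • e - y‖ ^ (-(q + 1)))] at this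
    · exact hint.norm.const_mul _
    · intro y τ hτ
      refine norm_mul_le_of_le hp (by linarith) hr (by linarith) h0 (hmem τ hτ) fun hy => ?_
      have h1 := sq_inner_mul_le _ e he (hne τ hτ y hy) (q + 2)
      have h2 : 0 ≤ ‖x + τ • e - y‖ ^ (-(q + 2)) := Real.rpow_nonneg (norm_nonneg _) _
      have h3 : 0 ≤ ⟪x + τ • e - y, e⟫ ^ 2 * ‖x + τ • e - y‖ ^ (-(q + 2 + 2)) :=
        mul_nonneg (sq_nonneg _) (Real.rpow_nonneg (norm_nonneg _) _)
      rw [abs_le]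
      constructor <;> nlinarith
    · intro y τ hτ
      by_cases hy : ‖y - z‖ < 2 * r
      · simpa [h0 y hy] using hasDerivAt_const τ (0 : ℝ)
      push Not at hy
      have h1 := hasDerivAt_norm_rpow_line (x - y) e (q + 2) τ (by rw [hrw]; exact hne τ hτ y hy)
      simp only [hrw] at h1
      have h2 : HasDerivAt (fun t : ℝ => ⟪x + t • e - y, e⟫) 1 τ := by
        have h3 : (fun t : ℝ => ⟪x + t • e - y, e⟫) = fun t : ℝ => ⟪x - y, e⟫ + t := by
          funext t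
          rw [← hrw, inner_add_left, real_inner_smul_left, real_inner_self_eq_norm_sq, he]
          ring
        rw [h3]
        exact (hasDerivAt_id τ).const_add _
      have h4 := (h2.fun_mul h1).const_mul (v y)
      refine h4.congr_deriv ?_
      ring
  simpa using step2 0 (mem_ball_self hδ0)

/-- One step of the Laplacian recursion. -/
lemma riesz_step {p q r : ℝ} (hp : (n : ℝ) < p) (hq : p ≤ q) (hr : 0 < r)
    {v : Rn n → ℝ} {z : Rn n} (hv : AEStronglyMeasurable v volume)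
    (hint : Integrable (fun y => v y * (1 + ‖y - z‖) ^ (-p)) volume)
    (h0 : ∀ y, ‖y - z‖ < 2 * r → v y = 0)
    (hK : ∀ x ∈ ball z r, ∫ y, v y * ‖x - y‖ ^ (-q) = 0) :
    ∀ x ∈ ball z r, ∫ y, v y * ‖x - y‖ ^ (-(q + 2)) = 0 := by
  intro x hx
  have hn0 : (0 : ℝ) ≤ n := Nat.cast_nonneg n
  have hp0 : 0 ≤ p := by linarith
  have hq0 : 0 < q := by linarith
  set e : Fin n → Rn n := fun i => EuclideanSpace.single i (1 : ℝ) with he
  have he1 : ∀ i, ‖e i‖ = 1 := fun i => by simp [he]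
  have h1 := fun i => second_deriv_eq_zero hp0 hq hq0 hr hv hint h0 hK hx (e i) (he1 i)
  have hI : ∀ i, Integrable (fun y => v y * (‖x - y‖ ^ (-(q + 2)) - (q + 2) *
      (⟪x - y, e i⟫ ^ 2 * ‖x - y‖ ^ (-(q + 2 + 2))))) volume := by
    intro i
    refine integrable_mul_of_le (C := q + 3) (q := q + 2) hp0 (by linarith) hr (by linarith) hv
      (Measurable.aestronglyMeasurable (by fun_prop)) hint h0 hx fun y hy => ?_
    have h1 := sq_inner_mul_le _ (e i) (he1 i) (ne_of_mem_ball hr hx hy) (q + 2)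
    have h2 : 0 ≤ ‖x - y‖ ^ (-(q + 2)) := Real.rpow_nonneg (norm_nonneg _) _
    have h3 : 0 ≤ ⟪x - y, e i⟫ ^ 2 * ‖x - y‖ ^ (-(q + 2 + 2)) :=
      mul_nonneg (sq_nonneg _) (Real.rpow_nonneg (norm_nonneg _) _)
    rw [abs_le]
    constructor <;> nlinarith
  have h2 : ∑ i, ∫ y, v y * (‖x - y‖ ^ (-(q + 2)) - (q + 2) *
      (⟪x - y, e i⟫ ^ 2 * ‖x - y‖ ^ (-(q + 2 + 2)))) = 0 :=
    Finset.sum_eq_zero fun i _ => h1 i
  rw [← integral_finsetSum _ (fun i _ => hI i)] at h2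
  have h3 : ∀ y, ∑ i, v y * (‖x - y‖ ^ (-(q + 2)) - (q + 2) *
      (⟪x - y, e i⟫ ^ 2 * ‖x - y‖ ^ (-(q + 2 + 2))))
      = (n - (q + 2)) * (v y * ‖x - y‖ ^ (-(q + 2))) := by
    intro y
    by_cases hy : ‖y - z‖ < 2 * r
    · simp [h0 y hy]
    push Not at hy
    have hpos : 0 < ‖x - y‖ := norm_pos_iff.2 (ne_of_mem_ball hr hx hy)
    have h4 : ∑ i, ⟪x - y, e i⟫ ^ 2 = ‖x - y‖ ^ 2 := by
      rw [EuclideanSpace.real_norm_sq_eq]
      refine Finset.sum_congr rfl fun i _ => ?_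
      simp [he, EuclideanSpace.inner_single_right]
    have h5 : ‖x - y‖ ^ 2 * ‖x - y‖ ^ (-(q + 2 + 2)) = ‖x - y‖ ^ (-(q + 2)) := by
      rw [← Real.rpow_natCast, ← Real.rpow_add hpos]; congr 1; push_cast; ring
    rw [← Finset.mul_sum, Finset.sum_sub_distrib, ← Finset.mul_sum, ← Finset.sum_mul, h4, h5]
    simp only [Finset.sum_const, Finset.card_univ, Fintype.card_fin, nsmul_eq_mul]
    ring
  simp only [h3, integral_const_mul] at h2
  rcases mul_eq_zero.1 h2 with h | h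
  · linarith
  · exact h

lemma riesz_iter {p r : ℝ} (hp : (n : ℝ) < p) (hr : 0 < r)
    {v : Rn n → ℝ} {z : Rn n} (hv : AEStronglyMeasurable v volume)
    (hint : Integrable (fun y => v y * (1 + ‖y - z‖) ^ (-p)) volume)
    (h0 : ∀ y, ‖y - z‖ < 2 * r → v y = 0)
    (hK : ∀ x ∈ ball z r, ∫ y, v y * ‖x - y‖ ^ (-p) = 0) (j : ℕ) :
    ∀ x ∈ ball z r, ∫ y, v y * ‖x - y‖ ^ (-(p + 2 * j)) = 0 := by
  induction j with
  | zero => simpa using hK
  | succ j ih =>
    have := riesz_step hp (q := p + 2 * j) (by have : (0 : ℝ) ≤ j := Nat.cast_nonneg j; linarith)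
      hr hv hint h0 ih
    intro x hx
    have h2 := this x hx
    rwa [show p + 2 * (j : ℝ) + 2 = p + 2 * ((j + 1 : ℕ) : ℝ) by push_cast; ring] at h2

lemma continuousOn_gaussProfile (a T : ℝ) :
    ContinuousOn (fun t : ℝ => t ^ (-a) * Real.exp (-t⁻¹) * (if t = 0 then 0 else 1))
      (Set.Icc 0 T) := by
  intro t ht
  rcases ht.1.eq_or_lt with h | h
  · subst h
    have h1 : Tendsto (fun t : ℝ => t ^ (-a) * Real.exp (-t⁻¹)) (𝓝[>] 0) (𝓝 0) := by
      have h2 := (tendsto_rpow_mul_exp_neg_mul_atTop_nhds_zero a 1 one_pos).comp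
        tendsto_inv_nhdsGT_zero
      refine h2.congr' ?_
      filter_upwards [self_mem_nhdsWithin] with t (ht : 0 < t)
      simp [Real.inv_rpow ht.le, Real.rpow_neg ht.le]
    have h3 : ContinuousWithinAt
        (fun t : ℝ => t ^ (-a) * Real.exp (-t⁻¹) * (if t = 0 then 0 else 1)) (Set.Ioi 0) 0 := by
      unfold ContinuousWithinAt
      simp only [if_true, mul_zero]
      refine h1.congr' ?_
      filter_upwards [self_mem_nhdsWithin] with t (ht : 0 < t)
      simp [ht.ne']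
    exact (continuousWithinAt_Ioi_iff_Ici.1 h3).mono Set.Icc_subset_Ici_self
  · refine ContinuousAt.continuousWithinAt ?_
    have h1 : ContinuousAt (fun t : ℝ => t ^ (-a) * Real.exp (-t⁻¹)) t := by
      refine ContinuousAt.mul (Real.continuousAt_rpow_const _ _ (Or.inl h.ne')) ?_
      exact Real.continuous_exp.continuousAt.comp (continuousAt_inv₀ h.ne').neg
    refine h1.congr ?_
    filter_upwards [Ioi_mem_nhds h] with s (hs : 0 < s)
    simp [hs.ne']

lemma gauss_eq_zero {p r : ℝ} (hp : (n : ℝ) < p) (hr : 0 < r)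
    {v : Rn n → ℝ} {z : Rn n} (hv : AEStronglyMeasurable v volume)
    (hint : Integrable (fun y => v y * (1 + ‖y - z‖) ^ (-p)) volume)
    (h0 : ∀ y, ‖y - z‖ < 2 * r → v y = 0)
    (hK : ∀ x ∈ ball z r, ∫ y, v y * ‖x - y‖ ^ (-p) = 0) :
    ∀ x ∈ ball z r, ∫ y, v y * Real.exp (-‖x - y‖ ^ 2) = 0 := by
  intro x hx
  have hn0 : (0 : ℝ) ≤ n := Nat.cast_nonneg n
  have hp0 : 0 ≤ p := by linarith
  have hx' : ‖x - z‖ < r := by simpa [dist_eq_norm] using hx
  have hdr : ∀ y, 2 * r ≤ ‖y - z‖ → r ≤ ‖x - y‖ := by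
    intro y hy
    have htri : ‖y - z‖ ≤ ‖x - y‖ + ‖x - z‖ := by
      have : y - z = (x - z) - (x - y) := by abel
      rw [this]
      exact (norm_sub_le _ _).trans (by linarith)
    linarith
  set t : Rn n → ℝ := fun y => (‖x - y‖ ^ 2)⁻¹ with ht
  set h : Rn n → ℝ := fun y => v y * ‖x - y‖ ^ (-p) with hh
  have htm : Measurable t := by fun_prop
  have htmem : ∀ y, 2 * r ≤ ‖y - z‖ → t y ∈ Set.Icc 0 (r ^ 2)⁻¹ := by
    intro y hy
    refine ⟨by positivity, ?_⟩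
    have := hdr y hy
    exact inv_anti₀ (by positivity) (by gcongr)
  have hhi : Integrable h volume := by
    refine integrable_mul_of_le (C := 1) hp0 le_rfl hr zero_le_one hv
      (measurable_norm_rpow _ _).aestronglyMeasurable hint h0 hx fun y _ => ?_
    rw [abs_of_nonneg (Real.rpow_nonneg (norm_nonneg _) _), one_mul]
  have hpow : ∀ (j : ℕ) y, h y * t y ^ j = v y * ‖x - y‖ ^ (-(p + 2 * j)) := by
    intro j y
    by_cases hy : ‖y - z‖ < 2 * r
    · simp [hh, h0 y hy]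
    push Not at hy
    have hpos : 0 < ‖x - y‖ := norm_pos_iff.2 (ne_of_mem_ball hr hx hy)
    simp only [hh, ht]
    rw [mul_assoc, inv_pow, ← pow_mul, ← Real.rpow_natCast, ← Real.rpow_neg hpos.le,
      ← Real.rpow_add hpos]
    congr 2; push_cast; ring
  have hpowi : ∀ j : ℕ, Integrable (fun y => h y * t y ^ j) volume := by
    intro j
    simp only [hpow]
    refine integrable_mul_of_le (C := 1) (q := p + 2 * j) hp0
      (by have : (0 : ℝ) ≤ j := Nat.cast_nonneg j; linarith) hr zero_le_one hv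
      (measurable_norm_rpow _ _).aestronglyMeasurable hint h0 hx fun y _ => ?_
    rw [abs_of_nonneg (Real.rpow_nonneg (norm_nonneg _) _), one_mul]
  have hpow0 : ∀ j : ℕ, ∫ y, h y * t y ^ j = 0 := by
    intro j
    simp only [hpow]
    exact riesz_iter hp hr hv hint h0 hK j x hx
  have hpoly : ∀ P : Polynomial ℝ, Integrable (fun y => h y * P.eval (t y)) volume ∧
      ∫ y, h y * P.eval (t y) = 0 := by
    intro P
    induction P using Polynomial.induction_on' with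
    | add P Q hP hQ =>
      simp only [Polynomial.eval_add, mul_add]
      refine ⟨hP.1.add hQ.1, ?_⟩
      rw [integral_add hP.1 hQ.1, hP.2, hQ.2, add_zero]
    | monomial j a =>
      have : ∀ y, h y * (Polynomial.monomial j a).eval (t y) = a * (h y * t y ^ j) := by
        intro y; simp only [Polynomial.eval_monomial]; ring
      simp only [this]
      exact ⟨(hpowi j).const_mul a, by rw [integral_const_mul, hpow0, mul_zero]⟩
  set G : ℝ → ℝ := fun t => t ^ (-(p / 2)) * Real.exp (-t⁻¹) * (if t = 0 then 0 else 1) with hG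
  have hGeq : ∀ y, v y * Real.exp (-‖x - y‖ ^ 2) = h y * G (t y) := by
    intro y
    by_cases hy : ‖y - z‖ < 2 * r
    · simp [hh, h0 y hy]
    push Not at hy
    have hpos : 0 < ‖x - y‖ := norm_pos_iff.2 (ne_of_mem_ball hr hx hy)
    have h1 : (‖x - y‖ ^ 2)⁻¹ ≠ 0 := by positivity
    have h2 : ‖x - y‖ ^ (-p) * ((‖x - y‖ ^ 2)⁻¹) ^ (-(p / 2)) = 1 := by
      rw [← Real.rpow_natCast, ← Real.rpow_neg hpos.le, ← Real.rpow_mul hpos.le,
        ← Real.rpow_add hpos]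
      convert Real.rpow_zero _ using 2
      push_cast; ring
    simp only [hh, ht, hG, if_neg h1, inv_inv, mul_one]
    rw [mul_assoc, ← mul_assoc (‖x - y‖ ^ (-p)), h2, one_mul]
  have hexpi : Integrable (fun y => v y * Real.exp (-‖x - y‖ ^ 2)) volume := by
    obtain ⟨C, hC⟩ := (isCompact_Icc (a := (0 : ℝ)) (b := (r ^ 2)⁻¹)).exists_bound_of_continuousOn
      (continuousOn_gaussProfile (p / 2) (r ^ 2)⁻¹)
    refine Integrable.mono' (hhi.norm.mul_const C)
      (hv.mul (Continuous.aestronglyMeasurable (by fun_prop))) (ae_of_all _ fun y => ?_)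
    by_cases hy : ‖y - z‖ < 2 * r
    · simp [hh, h0 y hy]
    push Not at hy
    rw [hGeq, norm_mul]
    exact mul_le_mul_of_nonneg_left (hC _ (htmem y hy)) (norm_nonneg _)
  have key : ∀ ε : ℝ, 0 < ε → |∫ y, v y * Real.exp (-‖x - y‖ ^ 2)| ≤ ε * ∫ y, ‖h y‖ := by
    intro ε hε
    obtain ⟨P, hP⟩ := exists_polynomial_near_of_continuousOn 0 (r ^ 2)⁻¹ G
      (continuousOn_gaussProfile (p / 2) (r ^ 2)⁻¹) ε hε
    have h1 : ∫ y, v y * Real.exp (-‖x - y‖ ^ 2)
        = ∫ y, (v y * Real.exp (-‖x - y‖ ^ 2) - h y * P.eval (t y)) := by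
      rw [integral_sub hexpi (hpoly P).1, (hpoly P).2, sub_zero]
    rw [h1, ← integral_const_mul, ← Real.norm_eq_abs]
    refine norm_integral_le_of_norm_le (hhi.norm.const_mul ε) (ae_of_all _ fun y => ?_)
    by_cases hy : ‖y - z‖ < 2 * r
    · simp [hh, h0 y hy]
    push Not at hy
    rw [hGeq, ← mul_sub, norm_mul, mul_comm]
    refine mul_le_mul_of_nonneg_right ?_ (norm_nonneg _)
    rw [Real.norm_eq_abs, abs_sub_comm]
    exact (hP _ (htmem y hy)).le
  have hI : 0 ≤ ∫ y, ‖h y‖ := integral_nonneg fun y => norm_nonneg _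
  rw [← abs_nonpos_iff]
  refine le_of_forall_pos_le_add fun ε hε => ?_
  set I := ∫ y, ‖h y‖ with hIdef
  have h1 := key (ε / (I + 1)) (by positivity)
  have h2 : ε / (I + 1) * I ≤ ε := by
    rw [div_mul_eq_mul_div, div_le_iff₀ (by positivity)]
    nlinarith
  linarith

/-- Unique continuation, pointwise version. -/
theorem ucp_core {p r : ℝ} (hp : (n : ℝ) < p) (hr : 0 < r)
    {v : Rn n → ℝ} {z : Rn n} (hv : AEStronglyMeasurable v volume)
    (hint : Integrable (fun y => v y * (1 + ‖y - z‖) ^ (-p)) volume)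
    (h0 : ∀ y, ‖y - z‖ < 2 * r → v y = 0)
    (hK : ∀ x ∈ ball z r, ∫ y, v y * ‖x - y‖ ^ (-p) = 0) : v =ᵐ[volume] 0 := by
  have hn0 : (0 : ℝ) ≤ n := Nat.cast_nonneg n
  have hp0 : 0 ≤ p := by linarith
  have hG := gauss_eq_zero hp hr hv hint h0 hK
  set h : Rn n → ℝ := fun y => v y * Real.exp (-‖z - y‖ ^ 2) with hh
  have hm : AEStronglyMeasurable h volume :=
    hv.mul (Continuous.aestronglyMeasurable (by fun_prop))
  have hzero : h =ᵐ[volume] 0 := by
    refine ae_eq_zero_of_laplace hm (fun θ => ?_) (δ := 2 * r) (by positivity) fun θ hθ => ?_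
    · refine Integrable.mono'
        (hint.norm.const_mul (Real.exp (‖z‖ * ‖θ‖ + (‖θ‖ + p) ^ 2 / 4)))
        (hm.mul (Continuous.aestronglyMeasurable (by fun_prop))) (ae_of_all _ fun y => ?_)
      set t := ‖y - z‖ with ht
      have ht0 : 0 ≤ t := norm_nonneg _
      have h1 : ⟪y, θ⟫ ≤ t * ‖θ‖ + ‖z‖ * ‖θ‖ := by
        have : y = (y - z) + z := by abel
        calc ⟪y, θ⟫ = ⟪y - z, θ⟫ + ⟪z, θ⟫ := by rw [← inner_add_left, ← this]
          _ ≤ _ := add_le_add (real_inner_le_norm _ _) (real_inner_le_norm _ _)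
      have h2 : Real.exp (-(p * t)) ≤ (1 + t) ^ (-p) := by
        have h3 : (Real.exp t) ^ (-p) ≤ (1 + t) ^ (-p) :=
          Real.rpow_le_rpow_of_nonpos (by positivity)
            (by linarith [Real.add_one_le_exp t]) (by linarith)
        rw [← Real.exp_mul] at h3
        convert h3 using 2; ring
      have h4 : ‖z - y‖ = t := norm_sub_rev _ _
      simp only [hh, norm_mul, Real.norm_eq_abs, h4, Real.abs_exp]
      rw [abs_of_nonneg (Real.rpow_nonneg (by positivity) _ : 0 ≤ (1 + t) ^ (-p))]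
      calc |v y| * Real.exp (-t ^ 2) * Real.exp ⟪y, θ⟫
          = |v y| * Real.exp (-t ^ 2 + ⟪y, θ⟫) := by rw [Real.exp_add, mul_assoc]
        _ ≤ |v y| * Real.exp ((‖z‖ * ‖θ‖ + (‖θ‖ + p) ^ 2 / 4) + -(p * t)) := by
          refine mul_le_mul_of_nonneg_left (Real.exp_le_exp.2 ?_) (abs_nonneg _)
          nlinarith [sq_nonneg (t - (‖θ‖ + p) / 2)]
        _ = Real.exp (‖z‖ * ‖θ‖ + (‖θ‖ + p) ^ 2 / 4) * (|v y| * Real.exp (-(p * t))) := by
          rw [Real.exp_add _ (-(p * t))]; ring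
        _ ≤ _ := by gcongr
    · have hx : z + (1 / 2 : ℝ) • θ ∈ ball z r := by
        rw [mem_ball, dist_eq_norm, add_sub_cancel_left, norm_smul]
        norm_num; linarith
      have h1 := hG _ hx
      have h2 : ∀ y, h y * Real.exp ⟪y, θ⟫ = Real.exp (⟪z, θ⟫ + ‖θ‖ ^ 2 / 4) *
          (v y * Real.exp (-‖z + (1 / 2 : ℝ) • θ - y‖ ^ 2)) := by
        intro y
        have h3 : ‖z + (1 / 2 : ℝ) • θ - y‖ ^ 2
            = ‖z - y‖ ^ 2 + ⟪z, θ⟫ - ⟪y, θ⟫ + ‖θ‖ ^ 2 / 4 := by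
          have : z + (1 / 2 : ℝ) • θ - y = (z - y) + (1 / 2 : ℝ) • θ := by abel
          rw [this, norm_add_sq_real, real_inner_smul_right, inner_sub_left, norm_smul]
          norm_num; ring
        simp only [hh]
        rw [mul_assoc, ← Real.exp_add, mul_left_comm, ← Real.exp_add, h3]
        congr 2; ring
      simp only [h2, integral_const_mul, h1, mul_zero]
  filter_upwards [hzero] with y hy
  simpa [hh] using hy

/-- Unique continuation: if `v` vanishes a.e. on the ball of radius `2r` and its Riesz potential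
vanishes a.e. on the ball of radius `r`, then `v` vanishes a.e. -/
theorem ucp {p r : ℝ} (hp : (n : ℝ) < p) (hr : 0 < r)
    {v : Rn n → ℝ} {z : Rn n} (hv : AEStronglyMeasurable v volume)
    (hint : Integrable (fun y => v y * (1 + ‖y - z‖) ^ (-p)) volume)
    (h0 : ∀ᵐ y ∂volume, y ∈ ball z (2 * r) → v y = 0)
    (hK : ∀ᵐ x ∂volume, x ∈ ball z r → ∫ y, v y * ‖x - y‖ ^ (-p) = 0) : v =ᵐ[volume] 0 := by
  have hn0 : (0 : ℝ) ≤ n := Nat.cast_nonneg n
  have hp0 : 0 ≤ p := by linarith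
  set w : Rn n → ℝ := (ball z (2 * r))ᶜ.indicator v with hw
  have hwv : w =ᵐ[volume] v := by
    filter_upwards [h0] with y hy
    by_cases hb : y ∈ ball z (2 * r)
    · simp [hw, hb, hy hb]
    · simp [hw, hb]
  have hwm : AEStronglyMeasurable w volume := hv.congr hwv.symm
  have hwint : Integrable (fun y => w y * (1 + ‖y - z‖) ^ (-p)) volume := by
    refine hint.congr ?_
    filter_upwards [hwv] with y hy using by rw [hy]
  have hw0 : ∀ y, ‖y - z‖ < 2 * r → w y = 0 := by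
    intro y hy
    have : y ∈ ball z (2 * r) := by simpa [dist_eq_norm] using hy
    simp [hw, this]
  have hKw : ∀ x, ∫ y, w y * ‖x - y‖ ^ (-p) = ∫ y, v y * ‖x - y‖ ^ (-p) := by
    intro x
    refine integral_congr_ae ?_
    filter_upwards [hwv] with y hy using by rw [hy]
  have hcont : ContinuousOn (fun x => ∫ y, w y * ‖x - y‖ ^ (-p)) (ball z r) := by
    refine continuousOn_of_dominated
      (bound := fun y => 1 * (r ^ (-(p - p)) * (2 + 1 / r) ^ p) * ‖w y * (1 + ‖y - z‖) ^ (-p)‖)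
      (fun x _ => hwm.mul (measurable_norm_rpow _ _).aestronglyMeasurable)
      (fun x hx => ae_of_all _ fun y => ?_) (hwint.norm.const_mul _) (ae_of_all _ fun y => ?_)
    · refine norm_mul_le_of_le hp0 le_rfl hr zero_le_one hw0 hx fun _ => ?_
      rw [abs_of_nonneg (Real.rpow_nonneg (norm_nonneg _) _), one_mul]
    · by_cases hy : ‖y - z‖ < 2 * r
      · simpa [hw0 y hy] using continuousOn_const
      push Not at hy
      refine continuousOn_const.mul (ContinuousOn.rpow_const (by fun_prop) fun x hx => ?_)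
      exact Or.inl (norm_ne_zero_iff.2 (ne_of_mem_ball hr hx hy))
  have hall : Set.EqOn (fun x => ∫ y, w y * ‖x - y‖ ^ (-p)) (fun _ => 0) (ball z r) := by
    refine Measure.eqOn_open_of_ae_eq (μ := volume) ?_ isOpen_ball hcont continuousOn_const
    rw [Filter.EventuallyEq, ae_restrict_iff' measurableSet_ball]
    filter_upwards [hK] with x hx hxb
    rw [hKw, hx hxb]
  exact hwv.symm.trans (ucp_core hp hr hwm hwint hw0 hall)

end Pool.Agent.Lib.MP_72af2c_an
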