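import Pool.Agent.Lib.MP_72af2c_an.Exist
import Pool.Agent.Lib.MP_72af2c_an.UCP

/-!
Splitting the bilinear form for functions with disjoint supports, and the energy estimate.
-/

open MeasureTheory Filter Topology Metric
open scoped ENNReal NNReal RealInnerProductSpace ContDiff

namespace Pool.Agent.Lib.MP_72af2c_an

variable {n : ℕ} {s : ℝ} {σ σ₁ σ₂ : Rn n → ℝ} {α β : ℝ}

lemma split_general {F A : Rn n × Rn n → ℝ} (hF : Integrable F (volume.prod volume))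
    (hA : AEStronglyMeasurable A (volume.prod volume))
    (h1 : ∀ᵐ p ∂(volume.prod volume), F p = A p + A p.swap ∧ (A p = 0 ∨ A p.swap = 0)) :
    Integrable A (volume.prod volume) ∧
      ∫ p, F p ∂(volume.prod volume) = 2 * ∫ p, A p ∂(volume.prod volume) := by
  have hAi : Integrable A (volume.prod volume) := by
    refine hF.mono hA ?_
    filter_upwards [h1] with p hp
    rcases hp.2 with h | h
    · rw [h, norm_zero]; exact norm_nonneg _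
    · rw [hp.1, h, add_zero]
  refine ⟨hAi, ?_⟩
  have h2 : ∫ p, F p ∂(volume.prod volume) = ∫ p, (A p + A p.swap) ∂(volume.prod volume) :=
    integral_congr_ae (h1.mono fun p hp => hp.1)
  have h3 : Integrable (fun p : Rn n × Rn n => A p.swap) (volume.prod volume) := hAi.swap
  rw [h2, integral_add hAi h3, integral_prod_swap A]; ring

lemma split (h : Cond σ α β) {u v : Rn n → ℝ} (hu : InHs s u) (hv : InHs s v)
    (huv : ∀ᵐ x ∂volume, u x * v x = 0) :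
    Integrable (fun p : Rn n × Rn n =>
      σ p.1 * σ p.2 * (v p.1 * u p.2 * ‖p.1 - p.2‖ ^ (-((n : ℝ) + 2 * s)))) (volume.prod volume) ∧
    Bf s σ u v = -2 * ∫ p : Rn n × Rn n,
      σ p.1 * σ p.2 * (v p.1 * u p.2 * ‖p.1 - p.2‖ ^ (-((n : ℝ) + 2 * s))) ∂(volume.prod volume) := by
  have := split_general (integrable_Bf h hu hv).neg
    (A := fun p : Rn n × Rn n =>
      σ p.1 * σ p.2 * (v p.1 * u p.2 * ‖p.1 - p.2‖ ^ (-((n : ℝ) + 2 * s))))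
    (h.aesm.mul (((aesm_fst hv.aesm).mul (aesm_snd hu.aesm)).mul (aesm_ker _))) ?_
  · refine ⟨this.1, ?_⟩
    have h2 := this.2
    simp only [Pi.neg_apply, integral_neg] at h2
    unfold Bf
    linarith
  filter_upwards [ae_fst huv, ae_snd huv] with p h1 h2
  simp only [Pi.neg_apply, gagliardo_mul, Prod.fst_swap, Prod.snd_swap, norm_sub_rev p.2 p.1]
  constructor
  · linear_combination (-(σ p.1 * σ p.2 * ‖p.1 - p.2‖ ^ (-((n : ℝ) + 2 * s)))) * (h1 + h2)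
  · rcases mul_eq_zero.1 h1 with h3 | h3
    · right; simp [h3]
    · left; simp [h3]

lemma diff_split (h₁ : Cond σ₁ α β) (h₂ : Cond σ₂ α β) {U : Set (Rn n)}
    (hσ : ∀ᵐ x ∂volume, x ∈ U → σ₁ x = σ₂ x) {f g : Rn n → ℝ} (hf : InHs s f) (hg : InHs s g)
    (hfU : ∀ x, x ∉ U → f x = 0) (hgU : ∀ x, x ∉ U → g x = 0) :
    Integrable (fun p : Rn n × Rn n => g p.1 * (σ₁ p.1 * f p.1) *
      ((σ₁ p.2 - σ₂ p.2) * ‖p.1 - p.2‖ ^ (-((n : ℝ) + 2 * s)))) (volume.prod volume) ∧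
    Bf s σ₁ f g - Bf s σ₂ f g = 2 * ∫ p : Rn n × Rn n, g p.1 * (σ₁ p.1 * f p.1) *
      ((σ₁ p.2 - σ₂ p.2) * ‖p.1 - p.2‖ ^ (-((n : ℝ) + 2 * s))) ∂(volume.prod volume) := by
  have hm₁ := h₁.meas.aestronglyMeasurable (μ := volume)
  have hm₂ := h₂.meas.aestronglyMeasurable (μ := volume)
  have := split_general ((integrable_Bf h₁ hf hg).sub (integrable_Bf h₂ hf hg))
    (A := fun p : Rn n × Rn n => g p.1 * (σ₁ p.1 * f p.1) *
      ((σ₁ p.2 - σ₂ p.2) * ‖p.1 - p.2‖ ^ (-((n : ℝ) + 2 * s))))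
    (((aesm_fst hg.aesm).mul ((aesm_fst hm₁).mul (aesm_fst hf.aesm))).mul
      (((aesm_snd hm₁).sub (aesm_snd hm₂)).mul (aesm_ker _))) ?_
  · refine ⟨this.1, ?_⟩
    rw [← this.2]
    unfold Bf
    rw [← integral_sub (integrable_Bf h₁ hf hg) (integrable_Bf h₂ hf hg)]
    rfl
  filter_upwards [ae_fst hσ, ae_snd hσ] with p h1 h2
  simp only [Pi.sub_apply, gagliardo_mul, Prod.fst_swap, Prod.snd_swap, norm_sub_rev p.2 p.1]
  by_cases hx : p.1 ∈ U <;> by_cases hy : p.2 ∈ U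
  · simp [h1 hx, h2 hy]
  · rw [hfU _ hy, hgU _ hy, ← h1 hx]
    exact ⟨by ring, Or.inr (by ring)⟩
  · rw [hfU _ hx, hgU _ hx, ← h2 hy]
    exact ⟨by ring, Or.inl (by ring)⟩
  · simp [hfU _ hy, hgU _ hy, hfU _ hx, hgU _ hx]

/-- The weight (1 + |y - z|)^(-(n + 2s)). -/
noncomputable def om (s : ℝ) (z y : Rn n) : ℝ := (1 + ‖y - z‖) ^ (-((n : ℝ) + 2 * s))

lemma om_pos (z y : Rn n) : 0 < om s z y := Real.rpow_pos_of_pos (by positivity) _

lemma om_le_one (hs0 : 0 < s) (z y : Rn n) : om s z y ≤ 1 :=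
  Real.rpow_le_one_of_one_le_of_nonpos (by linarith [norm_nonneg (y - z)])
    (by have : 0 ≤ (n : ℝ) + 2 * s := by positivity
        linarith)

lemma integrable_om (hs0 : 0 < s) (z : Rn n) : Integrable (om s z) volume := by
  have hint : Integrable (fun y : Rn n => (1 + ‖y‖) ^ (-((n : ℝ) + 2 * s))) volume :=
    integrable_one_add_norm (by simp; linarith)
  exact hint.comp_sub_right z

lemma memLp_om (hs0 : 0 < s) (z : Rn n) : MemLp (om s z) 2 volume := by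
  rw [memLp_two_iff_integrable_sq (integrable_om hs0 z).1]
  refine (integrable_om hs0 z).mono' ((integrable_om hs0 z).1.pow 2) (ae_of_all _ fun y => ?_)
  rw [Real.norm_eq_abs, abs_of_nonneg (sq_nonneg _)]
  nlinarith [om_pos (s := s) z y, om_le_one hs0 z y]

lemma cross_bound (h : Cond σ α β) (hs0 : 0 < s) {x₀ : Rn n} {ρ : ℝ} (hρ : 0 < ρ)
    {g φ : Rn n → ℝ} (hg : Integrable g volume) (hg0 : ∀ x, x ∉ ball x₀ ρ → g x = 0)
    (hφ : MemLp φ 2 volume) (hφ0 : ∀ᵐ y ∂volume, y ∈ ball x₀ (2 * ρ) → φ y = 0) :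
    |∫ p : Rn n × Rn n,
      σ p.1 * σ p.2 * (g p.1 * φ p.2 * ‖p.1 - p.2‖ ^ (-((n : ℝ) + 2 * s))) ∂(volume.prod volume)|
      ≤ β ^ 2 * (2 + 1 / ρ) ^ ((n : ℝ) + 2 * s) * ((∫ x, |g x|) * ∫ y, |φ y| * om s x₀ y) := by
  have hp : 0 ≤ (n : ℝ) + 2 * s := by positivity
  have hJ : Integrable (fun y => |φ y| * om s x₀ y) volume :=
    integrable_mul_two hφ.abs (memLp_om hs0 x₀)
  rw [← integral_prod_mul, ← integral_const_mul, ← Real.norm_eq_abs]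
  refine norm_integral_le_of_norm_le ((hg.abs.mul_prod hJ).const_mul _) ?_
  filter_upwards [ae_snd hφ0] with p hp2
  have hpos : 0 ≤ β ^ 2 * (2 + 1 / ρ) ^ ((n : ℝ) + 2 * s) * (|g p.1| * (|φ p.2| * om s x₀ p.2)) := by
    have := om_pos (s := s) x₀ p.2
    positivity
  by_cases hx : p.1 ∈ ball x₀ ρ
  swap
  · simp [hg0 _ hx]
  by_cases hy : p.2 ∈ ball x₀ (2 * ρ)
  · simp [hp2 hy]
  have hy' : 2 * ρ ≤ ‖p.2 - x₀‖ := by simpa [dist_eq_norm] using hy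
  have h1 := ker_le hp le_rfl hρ hx hy'
  rw [sub_self, neg_zero, Real.rpow_zero, one_mul] at h1
  rw [Real.norm_eq_abs, abs_mul, abs_mul (g p.1 * φ p.2), abs_mul (g p.1),
    abs_of_nonneg (Real.rpow_nonneg (norm_nonneg _) _)]
  calc _ ≤ β ^ 2 * (|g p.1| * |φ p.2| * ((2 + 1 / ρ) ^ ((n : ℝ) + 2 * s) * om s x₀ p.2)) := by
        gcongr
        · exact h.abs_le _ _
        · exact h1
    _ = _ := by ring

/-- Weak solutions, written with `Bf`. -/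
def Sol (s : ℝ) (σ : Rn n → ℝ) (Ω : Set (Rn n)) (f u : Rn n → ℝ) : Prop :=
  InHs s u ∧ InHsTilde s Ω (u - f) ∧ ∀ φ, InHsTilde s Ω φ → Bf s σ u φ = 0

lemma InHsTilde.ae_zero_ball {Ω : Set (Rn n)} {φ : Rn n → ℝ} (hφ : InHsTilde s Ω φ) {x₀ : Rn n}
    {R : ℝ} (hΩ : ∀ x ∈ Ω, x ∉ ball x₀ R) : ∀ᵐ y ∂volume, y ∈ ball x₀ R → φ y = 0 := by
  filter_upwards [hφ.ae_zero measurableSet_ball.compl hΩ] with y hy hyb
  exact hy fun h => h hyb

lemma ae_mul_zero {φ g : Rn n → ℝ} {x₀ : Rn n} {ρ : ℝ} (hρ : 0 < ρ)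
    (hg0 : ∀ x, x ∉ ball x₀ ρ → g x = 0) (hφ0 : ∀ᵐ y ∂volume, y ∈ ball x₀ (2 * ρ) → φ y = 0) :
    ∀ᵐ x ∂volume, φ x * g x = 0 := by
  filter_upwards [hφ0] with x hx
  by_cases hb : x ∈ ball x₀ ρ
  · rw [hx (ball_subset_ball (by linarith) hb), zero_mul]
  · rw [hg0 x hb, mul_zero]

/-- Energy estimate. -/
lemma energy (hn : 1 ≤ n) (h : Cond σ α β) (hs0 : 0 < s) (hs1 : s < 1) {Ω : Set (Rn n)}
    {e : Rn n} (he : ‖e‖ = 1) {c r : ℝ} (hΩ : ∀ x ∈ Ω, |⟪x, e⟫ - c| ≤ r)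
    {x₀ : Rn n} {ρ : ℝ} (hρ : 0 < ρ) (hΩ' : ∀ x ∈ Ω, x ∉ ball x₀ (2 * ρ)) :
    ∃ C : ℝ, 0 ≤ C ∧ ∀ f u, IsTest (ball x₀ ρ) f → Sol s σ Ω f u →
      ∫ y, |(u - f) y| * om s x₀ y ≤ C * ∫ x, |f x| := by
  obtain ⟨C, hC, hP⟩ := poincare_tilde hs0 he hΩ
  set A := β ^ 2 * (2 + 1 / ρ) ^ ((n : ℝ) + 2 * s) with hA
  have hA0 : 0 ≤ A := by positivity
  set O := ∫ y, om s x₀ y ^ 2 with hO
  have hO0 : 0 ≤ O := integral_nonneg fun y => sq_nonneg _
  have hα := h.pos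
  refine ⟨C / α ^ 2 * (2 * A) * O, by positivity, fun f u hf hu => ?_⟩
  set φ := u - f with hφ
  have hφT : InHsTilde s Ω φ := hu.2.1
  have hfH := hf.inHs hn hs0 hs1
  have hφ0 := hφT.ae_zero_ball hΩ'
  set J := ∫ y, |φ y| * om s x₀ y with hJ
  set I := ∫ x, |f x| with hI
  have hI0 : 0 ≤ I := integral_nonneg fun y => abs_nonneg _
  have hJ0 : 0 ≤ J := integral_nonneg fun y => mul_nonneg (abs_nonneg _) (om_pos _ _).le
  have h1 : Bf s σ f φ + Bf s σ φ φ = 0 := by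
    rw [← Bf_add_left h hfH hφT.1 hφT.1, ← hu.2.2 φ hφT]
    congr 1; rw [hφ]; abel
  have h2 := (split h hφT.1 hfH (ae_mul_zero hρ (fun x => hf.eq_zero) hφ0)).2
  have h3 := cross_bound h hs0 hρ hf.integrable (fun x => hf.eq_zero) hφT.1.1 hφ0
  have h4 : Bf s σ φ φ ≤ 2 * A * (I * J) := by
    rw [Bf_comm] at h1
    rw [abs_le] at h3
    linarith [h3.2]
  have h5 := Bf_self_ge h hφT.1
  have h6 := hP φ hφT
  have h7 := integral_mul_sq_le hφT.1.1.abs (memLp_om hs0 x₀)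
  simp only [Pi.abs_apply, sq_abs] at h7
  have h8 : ∫ x, φ x ^ 2 ≤ C / α ^ 2 * (2 * A * (I * J)) := by
    calc _ ≤ _ := h6
      _ = C / α ^ 2 * (α ^ 2 * ∫ p, gagliardo s φ p ^ 2 ∂(volume.prod volume)) := by field_simp
      _ ≤ _ := mul_le_mul_of_nonneg_left (h5.trans h4) (by positivity)
  have h9 : J ^ 2 ≤ (C / α ^ 2 * (2 * A) * O * I) * J := by
    calc J ^ 2 ≤ (∫ x, φ x ^ 2) * O := h7
      _ ≤ C / α ^ 2 * (2 * A * (I * J)) * O := by gcongr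
      _ = _ := by ring
  rcases hJ0.eq_or_lt with h0 | h0
  · rw [← h0]; positivity
  · rw [sq] at h9
    exact le_of_mul_le_mul_right h9 h0

end Pool.Agent.Lib.MP_72af2c_an
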